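import Mathlib

/-!
# Matchings as involutions, and the exchange operation
-/

set_option autoImplicit false
set_option linter.unusedSectionVars false
set_option linter.unusedVariables false

namespace Pool.Agent.Run7.h502.FD

open SimpleGraph Finset

variable {V : Type*} [Fintype V] [DecidableEq V] {G : SimpleGraph V}

/-- Matchings as involutions. -/
def Mat (G : SimpleGraph V) (f : V → V) : Prop :=
  (∀ v, f (f v) = v) ∧ ∀ v, f v ≠ v → G.Adj v (f v)

/-- Number of uncovered vertices. -/
def fx (f : V → V) : ℕ := (univ.filter (fun v => f v = v)).card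

/-- Maximum matchings. -/
def MaxM (G : SimpleGraph V) (f : V → V) : Prop := Mat G f ∧ ∀ g, Mat G g → fx f ≤ fx g

/-- Number of disagreements. -/
def dis (f g : V → V) : ℕ := (univ.filter (fun v => f v ≠ g v)).card

omit [Fintype V] in
/-- Exchange: match `u` with `y`, leave the old partner of `y` uncovered. -/
def exch (f : V → V) (u y : V) : V → V := fun v =>
  if v = u then y else if v = y then u else if v = f y then f y else f v

section
omit [Fintype V]

lemma exch_u (f : V → V) (u y : V) : exch f u y u = y := by simp [exch]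

lemma exch_y (f : V → V) (u y : V) : exch f u y y = u := by
  by_cases h : y = u
  · rw [exch, if_pos h, h]
  · rw [exch, if_neg h, if_pos rfl]

lemma exch_fy {f : V → V} {u y : V} (h1 : f y ≠ u) (h2 : f y ≠ y) :
    exch f u y (f y) = f y := by
  simp [exch, h1, h2]

lemma exch_other {f : V → V} {u y v : V} (h1 : v ≠ u) (h2 : v ≠ y) (h3 : v ≠ f y) :
    exch f u y v = f v := by
  simp [exch, h1, h2, h3]

lemma Mat.inv {f : V → V} (h : Mat G f) (v : V) : f (f v) = v := h.1 v

lemma Mat.inj {f : V → V} (h : Mat G f) {v w : V} (e : f v = f w) : v = w := by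
  rw [← h.1 v, e, h.1]

lemma Mat.exch {f : V → V} (h : Mat G f) {u y : V} (hu : f u = u) (ha : G.Adj u y) :
    Mat G (exch f u y) := by
  have hyu : y ≠ u := ha.ne'
  have hfyu : f y ≠ u := fun e => hyu (h.inj (e.trans hu.symm))
  constructor
  · intro v
    by_cases h1 : v = u
    · subst h1; rw [exch_u, exch_y]
    by_cases h2 : v = y
    · subst h2; rw [exch_y, exch_u]
    by_cases h3 : v = f y
    · subst h3
      rw [exch_fy hfyu h2, exch_fy hfyu h2]
    rw [exch_other h1 h2 h3, exch_other _ _ _, h.inv]
    · intro e; exact h1 (h.inj (e.trans hu.symm))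
    · intro e; exact h3 (by rw [← e, h.inv])
    · intro e; exact h2 (h.inj e)
  · intro v hv
    by_cases h1 : v = u
    · subst h1; rw [exch_u]; exact ha
    by_cases h2 : v = y
    · subst h2; rw [exch_y]; exact ha.symm
    by_cases h3 : v = f y
    · subst h3
      rw [exch_fy hfyu h2] at hv
      exact absurd rfl hv
    rw [exch_other h1 h2 h3] at hv ⊢
    exact h.2 v hv

end

lemma fx_add {f : V → V} (h : Mat G f) {u y : V} (hu : f u = u) (hy : f y = y)
    (ha : G.Adj u y) : fx (exch f u y) < fx f := by
  unfold fx
  apply Finset.card_lt_card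
  rw [Finset.ssubset_iff_of_subset]
  · exact ⟨u, by simp [hu], by simp [exch_u, ha.ne']⟩
  · intro v
    simp only [mem_filter, mem_univ, true_and]
    intro hv
    by_cases h1 : v = u
    · subst h1; exact hu
    by_cases h2 : v = y
    · subst h2; exact hy
    rwa [exch_other h1 h2 (by rwa [hy])] at hv

lemma fx_exch {f : V → V} (h : Mat G f) {u y : V} (hu : f u = u) (hy : f y ≠ y)
    (ha : G.Adj u y) : fx (exch f u y) = fx f := by
  have hyu : y ≠ u := ha.ne'
  have hfyu : f y ≠ u := fun e => hyu (h.inj (e.trans hu.symm))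
  unfold fx
  have : (univ.filter (fun v => exch f u y v = v)) =
      insert (f y) ((univ.filter (fun v => f v = v)).erase u) := by
    ext v
    simp only [mem_filter, mem_univ, true_and, mem_insert, mem_erase]
    by_cases h1 : v = u
    · subst h1
      simp [exch_u, hyu, hfyu.symm]
    by_cases h2 : v = y
    · subst h2
      simp only [exch_y]
      constructor
      · intro e; exact absurd e.symm h1
      · rintro (e | e)
        · exact absurd e.symm hy
        · exact absurd e.2 hy
    by_cases h3 : v = f y
    · subst h3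
      simp [exch_fy hfyu h2]
    simp [exch_other h1 h2 h3, h1, h3]
  rw [this, Finset.card_insert_of_notMem, Finset.card_erase_of_mem]
  · have : 0 < (univ.filter (fun v => f v = v)).card :=
      Finset.card_pos.2 ⟨u, by simp [hu]⟩
    omega
  · simp [hu]
  · simp only [mem_erase, mem_filter, mem_univ, true_and, not_and]
    intro _ e
    exact hy (h.inj e)

lemma MaxM.ne {f : V → V} (h : MaxM G f) {u y : V} (hu : f u = u) (ha : G.Adj u y) :
    f y ≠ y := fun hy => by
  have := h.2 _ (h.1.exch hu ha)
  have := fx_add h.1 hu hy ha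
  omega

lemma MaxM.exch {f : V → V} (h : MaxM G f) {u y : V} (hu : f u = u) (ha : G.Adj u y) :
    MaxM G (exch f u y) :=
  ⟨h.1.exch hu ha, fun g hg => by rw [fx_exch h.1 hu (h.ne hu ha) ha]; exact h.2 g hg⟩

lemma MaxM.fx_eq {f g : V → V} (h : MaxM G f) (h' : MaxM G g) : fx f = fx g :=
  le_antisymm (h.2 _ h'.1) (h'.2 _ h.1)

lemma dis_exch {f M : V → V} (h : Mat G f) (hM : Mat G M) {u y : V} (hu : f u = u)
    (hMu : M u = y) (hyu : y ≠ u) (hy : f y ≠ y) : dis (exch f u y) M < dis f M := by
  have hMy : M y = u := by rw [← hMu, hM.inv]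
  have hfyu : f y ≠ u := fun e => hyu (h.inj (e.trans hu.symm))
  unfold dis
  apply Finset.card_lt_card
  rw [Finset.ssubset_iff_of_subset]
  · exact ⟨u, by simp [hu, hMu, hyu.symm], by simp [exch_u, hMu]⟩
  · intro v
    simp only [mem_filter, mem_univ, true_and]
    intro hv
    by_cases h1 : v = u
    · subst h1; rw [hu, hMu]; exact hyu.symm
    by_cases h2 : v = y
    · subst h2; rwa [hMy]
    by_cases h3 : v = f y
    · subst h3
      rw [h.inv]
      intro e
      apply hfyu
      rw [← hM.inv (f y), ← e, hMy]
    rwa [exch_other h1 h2 h3] at hv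

end Pool.Agent.Run7.h502.FD
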