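import Pool.Agent.Run7.h502.FD.Defs

/-!
# Odd closed walks contain odd cycles; colourings; arcs
-/

set_option autoImplicit false

namespace Pool.Agent.Run7.h502.FD

open SimpleGraph

variable {V : Type*} {H G : SimpleGraph V}

lemma walk_dich {a b : V} (p : H.Walk a b) :
    (∃ (x : V) (c : H.Walk x x), Odd c.length ∧ c.length ≤ p.length) ∨
      ∃ q : H.Walk a b, q.IsPath ∧ (Even q.length ↔ Even p.length) := by
  classical
  suffices h : (∃ (x : V) (c : H.Walk x x), Odd c.length ∧ c.length ≤ p.length) ∨
      ∃ q : H.Walk a b, q.IsPath ∧ (Even q.length ↔ Even p.length) ∧ q.length ≤ p.length by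
    rcases h with h | ⟨q, h1, h2, -⟩
    · exact Or.inl h
    · exact Or.inr ⟨q, h1, h2⟩
  induction p with
  | nil => exact Or.inr ⟨Walk.nil, by simp, by simp, by simp⟩
  | @cons a c b h p ih =>
    rcases ih with ⟨x, cc, h1, h2⟩ | ⟨q, hq, hpar, hl⟩
    · exact Or.inl ⟨x, cc, h1, by rw [Walk.length_cons]; omega⟩
    · by_cases ha : a ∈ q.support
      · have e := congrArg Walk.length (q.take_spec ha)
        rw [Walk.length_append] at e
        by_cases hodd : Odd ((Walk.cons h (q.takeUntil a ha)).length)
        · refine Or.inl ⟨a, _, hodd, ?_⟩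
          rw [Walk.length_cons, Walk.length_cons]
          omega
        · refine Or.inr ⟨q.dropUntil a ha, hq.dropUntil ha, ?_, ?_⟩
          · rw [Walk.length_cons] at hodd ⊢
            rw [Nat.not_odd_iff_even] at hodd
            rw [Nat.even_add_one] at hodd ⊢
            rw [← hpar, ← e, Nat.even_add]
            tauto
          · rw [Walk.length_cons]; omega
      · refine Or.inr ⟨Walk.cons h q, ?_, ?_, ?_⟩
        · rw [Walk.cons_isPath_iff]; exact ⟨hq, ha⟩
        · rw [Walk.length_cons, Walk.length_cons, Nat.even_add_one, Nat.even_add_one, hpar]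
        · rw [Walk.length_cons, Walk.length_cons]; omega

lemma exists_oddCycle_aux : ∀ (n : ℕ) (u : V) (w : H.Walk u u), w.length = n → Odd n →
    ∃ (v : V) (c : H.Walk v v), c.IsCycle ∧ Odd c.length := by
  intro n
  induction n using Nat.strong_induction_on with
  | _ n ih =>
    intro u w hw hn
    cases w with
    | nil => rw [← hw] at hn; simp at hn
    | @cons _ v _ h p =>
      rw [Walk.length_cons] at hw
      rcases walk_dich p with ⟨x, c, h1, h2⟩ | ⟨q, hq, hpar⟩
      · exact ih c.length (by omega) x c rfl h1
      · have hpe : Even p.length := by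
          rw [← hw, Nat.odd_add_one, Nat.not_odd_iff_even] at hn
          exact hn
        have hqe : Even q.length := hpar.2 hpe
        refine ⟨u, Walk.cons h q, ?_, ?_⟩
        · rw [Walk.cons_isCycle_iff]
          refine ⟨hq, fun he => ?_⟩
          cases q with
          | nil => exact h.ne rfl
          | @cons _ x _ h' r =>
            rw [Walk.cons_isPath_iff] at hq
            rw [Walk.edges_cons, List.mem_cons] at he
            rcases he with he | he
            · have hx : x = u := by
                rw [Sym2.eq_iff] at he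
                rcases he with ⟨e1, e2⟩ | ⟨e1, _⟩
                · exact absurd e1 h.ne
                · exact e1.symm
              subst hx
              have := (Walk.isPath_iff_nil.1 hq.1).eq_nil
              subst this
              rw [Walk.length_cons, Walk.length_nil] at hqe
              exact absurd hqe (by decide)
            · exact hq.2 (Walk.snd_mem_support_of_mem_edges _ he)
        · rw [Walk.length_cons]; exact hqe.add_one

lemma exists_oddCycle (h : ¬ H.Colorable 2) :
    ∃ (v : V) (c : H.Walk v v), c.IsCycle ∧ Odd c.length := by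
  rw [two_colorable_iff_forall_loop_even] at h
  push Not at h
  obtain ⟨u, w, hw⟩ := h
  exact exists_oddCycle_aux w.length u w rfl (by simpa using hw)

/-- Colours along a walk. -/
lemma color_walk (χ : V → Bool) {x y : V} (p : G.Walk x y)
    (h : ∀ a b, s(a, b) ∈ p.edges → χ a ≠ χ b) : (Even p.length ↔ χ x = χ y) := by
  induction p with
  | nil => simp
  | @cons a c b hadj p ih =>
    have h1 : χ a ≠ χ c := h a c (by simp)
    have h2 := ih (fun a' b' hab => h a' b' (by simp [hab]))
    rw [Walk.length_cons, Nat.even_add_one, h2]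
    revert h1
    cases χ a <;> cases χ c <;> cases χ b <;> simp

/-- The arc lemma. -/
lemma arc {C : G.Subgraph} (hC : IsOddCycle G C) {x y : V} (hx : x ∈ C.verts)
    (hy : y ∈ C.verts) : ∃ e ∈ C.edgeSet, ∀ χ : V → Bool,
      (∀ a b, C.Adj a b → s(a, b) ≠ e → χ a ≠ χ b) → χ x = χ y := by
  classical
  obtain ⟨v, c, hc, hodd, rfl⟩ := hC
  rw [Walk.mem_verts_toSubgraph] at hx hy
  have hrot := hc.rotate hx
  have hy' : y ∈ (c.rotate x hx).support := by
    rw [Walk.mem_support_rotate_iff]; exact hy
  have hl : (c.rotate x hx).length = c.length := by simp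
  have hsub : ∀ e, e ∈ (c.rotate x hx).edges ↔ e ∈ c.edges := fun e =>
    (c.rotate_edges x hx).perm.mem_iff
  set c' := c.rotate x hx with hc'
  have e := congrArg Walk.length (c'.take_spec hy')
  have e2 := congrArg Walk.edges (c'.take_spec hy')
  rw [Walk.length_append] at e
  rw [Walk.edges_append] at e2
  have hnd : c'.edges.Nodup := hrot.isTrail.edges_nodup
  rw [← e2] at hnd
  by_cases hxy : x = y
  · subst hxy
    have hne : c'.edges ≠ [] := by
      intro h0
      have : c'.length = 0 := by rw [← Walk.length_edges, h0]; rfl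
      rw [this] at hl
      rw [← hl] at hodd
      simp at hodd
    obtain ⟨e0, he0⟩ := List.exists_mem_of_ne_nil _ hne
    exact ⟨e0, by rw [Walk.mem_edges_toSubgraph]; exact (hsub _).1 he0, fun χ _ => rfl⟩
  by_cases hp : Even (c'.takeUntil y hy').length
  · have hq : (c'.dropUntil y hy').edges ≠ [] := by
      intro h0
      have : (c'.dropUntil y hy').length = 0 := by rw [← Walk.length_edges, h0]; rfl
      exact hxy (Walk.eq_of_length_eq_zero this).symm
    obtain ⟨e0, he0⟩ := List.exists_mem_of_ne_nil _ hq
    refine ⟨e0, ?_, fun χ hχ => ?_⟩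
    · rw [Walk.mem_edges_toSubgraph, ← hsub, ← e2]
      exact List.mem_append_right _ he0
    · refine (color_walk χ (c'.takeUntil y hy') ?_).1 hp
      intro a b hab
      have hmem : s(a, b) ∈ c'.edges := by rw [← e2]; exact List.mem_append_left _ hab
      refine hχ a b ?_ ?_
      · rw [← Subgraph.mem_edgeSet, Walk.mem_edges_toSubgraph, ← hsub]
        exact hmem
      · rintro rfl
        exact (List.nodup_append.1 hnd).2.2 _ hab _ he0 rfl
  · have hqe : Even (c'.dropUntil y hy').length := by
      rw [← hl, ← e, Nat.odd_add'] at hodd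
      by_contra hcon
      rw [Nat.not_even_iff_odd] at hcon hp
      exact absurd (hodd.1 hcon) (by rwa [Nat.not_even_iff_odd])
    have hq : (c'.takeUntil y hy').edges ≠ [] := by
      intro h0
      have : (c'.takeUntil y hy').length = 0 := by rw [← Walk.length_edges, h0]; rfl
      rw [this] at hp
      simp at hp
    obtain ⟨e0, he0⟩ := List.exists_mem_of_ne_nil _ hq
    refine ⟨e0, ?_, fun χ hχ => ?_⟩
    · rw [Walk.mem_edges_toSubgraph, ← hsub, ← e2]
      exact List.mem_append_left _ he0
    · refine ((color_walk χ (c'.dropUntil y hy') ?_).1 hqe).symm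
      intro a b hab
      have hmem : s(a, b) ∈ c'.edges := by rw [← e2]; exact List.mem_append_right _ hab
      refine hχ a b ?_ ?_
      · rw [← Subgraph.mem_edgeSet, Walk.mem_edges_toSubgraph, ← hsub]
        exact hmem
      · rintro rfl
        exact (List.nodup_append.1 hnd).2.2 _ he0 _ hab rfl

end Pool.Agent.Run7.h502.FD
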