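import Pool.Agent.Run7.h502.FD.Flower

/-!
# Translation between subgraph matchings and involutions
-/

set_option autoImplicit false
set_option linter.unusedSectionVars false
set_option linter.unusedVariables false

namespace Pool.Agent.Run7.h502.FD

open SimpleGraph Finset

variable {V : Type*} {G : SimpleGraph V}

open Classical in
/-- The involution of a matching. -/
noncomputable def toF (M : G.Subgraph) (v : V) : V := if h : ∃ w, M.Adj v w then h.choose else v

lemma toF_of_adj {M : G.Subgraph} (hM : M.IsMatching) {v w : V} (h : M.Adj v w) :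
    toF M v = w := by
  have h' : ∃ w, M.Adj v w := ⟨w, h⟩
  rw [toF, dif_pos h']
  exact (hM (M.edge_vert h)).unique h'.choose_spec h

lemma toF_not {M : G.Subgraph} {v : V} (h : v ∉ M.verts) : toF M v = v := by
  rw [toF, dif_neg]
  rintro ⟨w, hw⟩
  exact h (M.edge_vert hw)

lemma adj_toF {M : G.Subgraph} (hM : M.IsMatching) {v : V} (h : v ∈ M.verts) :
    M.Adj v (toF M v) := by
  obtain ⟨w, hw, -⟩ := hM h
  rwa [toF_of_adj hM hw]

lemma toF_iff {M : G.Subgraph} (hM : M.IsMatching) {v w : V} :
    M.Adj v w ↔ toF M v = w ∧ v ≠ w := by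
  constructor
  · intro h; exact ⟨toF_of_adj hM h, (M.adj_sub h).ne⟩
  · rintro ⟨rfl, h⟩
    by_cases hv : v ∈ M.verts
    · exact adj_toF hM hv
    · exact absurd (toF_not hv).symm h

lemma toF_ne_iff {M : G.Subgraph} (hM : M.IsMatching) {v : V} :
    toF M v ≠ v ↔ v ∈ M.verts := by
  constructor
  · intro h; by_contra hv; exact h (toF_not hv)
  · intro h; exact (M.adj_sub (adj_toF hM h)).ne'

lemma mat_toF {M : G.Subgraph} (hM : M.IsMatching) : Mat G (toF M) := by
  refine ⟨fun v => ?_, fun v hv => ?_⟩
  · by_cases hv : v ∈ M.verts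
    · exact toF_of_adj hM (adj_toF hM hv).symm
    · rw [toF_not hv, toF_not hv]
  · exact M.adj_sub (adj_toF hM ((toF_ne_iff hM).1 hv))

/-- The subgraph of an involution. -/
def toM (f : V → V) (hf : Mat G f) : G.Subgraph where
  verts := {v | f v ≠ v}
  Adj v w := f v = w ∧ v ≠ w
  adj_sub := by
    rintro v w ⟨rfl, h⟩
    exact hf.2 v h.symm
  edge_vert := by
    rintro v w ⟨rfl, h⟩
    exact h.symm
  symm := ⟨by
    rintro v w ⟨rfl, h⟩
    exact ⟨hf.1 v, h.symm⟩⟩

lemma toM_matching {f : V → V} (hf : Mat G f) : (toM f hf).IsMatching := by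
  intro v hv
  exact ⟨f v, ⟨rfl, Ne.symm hv⟩, fun w hw => hw.1.symm⟩

lemma toF_toM {f : V → V} (hf : Mat G f) : toF (toM f hf) = f := by
  funext v
  by_cases hv : f v = v
  · rw [toF_not, hv]
    exact fun h => h hv
  · exact toF_of_adj (toM_matching hf) ⟨rfl, fun h => hv h.symm⟩

variable [Fintype V] [DecidableEq V]

lemma count_edges (H : SimpleGraph V) (hH : ∀ v w w', H.Adj v w → H.Adj v w' → w = w') :
    {v | ∃ w, H.Adj v w}.ncard = 2 * H.edgeSet.ncard := by
  classical
  have h1 := H.sum_degrees_eq_twice_card_edges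
  have h2 : ∀ v, H.degree v = if ∃ w, H.Adj v w then 1 else 0 := by
    intro v
    split_ifs with h
    · obtain ⟨w, hw⟩ := h
      rw [← card_neighborFinset_eq_degree, Finset.card_eq_one]
      refine ⟨w, ?_⟩
      ext w'
      simp only [mem_neighborFinset, Finset.mem_singleton]
      exact ⟨fun h => hH v _ _ h hw, fun h => h ▸ hw⟩
    · rw [← card_neighborFinset_eq_degree, Finset.card_eq_zero]
      ext w'
      simp only [mem_neighborFinset]
      exact ⟨fun h' => absurd ⟨w', h'⟩ h, fun h' => by simp at h'⟩
  simp only [h2] at h1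
  rw [Finset.sum_boole] at h1
  have h3 : H.edgeSet.ncard = H.edgeFinset.card := by
    rw [← coe_edgeFinset, Set.ncard_coe_finset]
  rw [h3, ← h1, ← Set.ncard_coe_finset]
  simp

lemma count_match {M : G.Subgraph} (hM : M.IsMatching) :
    2 * M.edgeSet.ncard + fx (toF M) = Fintype.card V := by
  classical
  have h := count_edges M.spanningCoe (by
    intro v w w' h1 h2
    simp only [Subgraph.spanningCoe_adj] at h1 h2
    rw [← toF_of_adj hM h1, ← toF_of_adj hM h2])
  have h2 : {v | ∃ w, M.spanningCoe.Adj v w} = {v | ¬ toF M v = v} := by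
    ext v
    simp only [Subgraph.spanningCoe_adj, Set.mem_setOf_eq]
    constructor
    · rintro ⟨w, hw⟩
      exact (toF_ne_iff hM).2 (M.edge_vert hw)
    · intro hv
      exact ⟨_, adj_toF hM ((toF_ne_iff hM).1 hv)⟩
  have h3 : M.spanningCoe.edgeSet = M.edgeSet := by
    ext e
    induction e with
    | _ x y => simp
  rw [h2, h3] at h
  rw [← h, fx]
  have h4 : {v | ¬ toF M v = v}.ncard = (univ.filter (fun v => ¬ toF M v = v)).card := by
    rw [← Set.ncard_coe_finset]; simp
  rw [h4, add_comm, Finset.card_filter_add_card_filter_not, Finset.card_univ]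

lemma maxM_of_max {M : G.Subgraph} (hM : IsMaxMatching G M) : MaxM G (toF M) := by
  refine ⟨mat_toF hM.1, fun g hg => ?_⟩
  have h1 := count_match hM.1
  have h2 := count_match (toM_matching hg)
  rw [toF_toM] at h2
  have h3 := hM.2 _ (toM_matching hg)
  omega

lemma max_of_maxM {f : V → V} (hf : MaxM G f) : IsMaxMatching G (toM f hf.1) := by
  refine ⟨toM_matching hf.1, fun M' hM' => ?_⟩
  have h1 := count_match hM'
  have h2 := count_match (toM_matching hf.1)
  rw [toF_toM] at h2
  have h3 := hf.2 _ (mat_toF hM')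
  omega

lemma oddCycle_card {C : G.Subgraph} (hC : IsOddCycle G C) : Odd C.verts.ncard := by
  obtain ⟨v, c, hc, hodd, rfl⟩ := hC
  have : c.toSubgraph.verts = ↑(c.support.tail.toFinset) := by
    ext x
    simp only [Walk.mem_verts_toSubgraph, List.coe_toFinset, Set.mem_setOf_eq]
    constructor
    · intro hx
      cases c with
      | nil => exact absurd hc Walk.not_isCycle_nil
      | cons h p =>
        rw [Walk.support_cons, List.mem_cons] at hx
        rw [Walk.support_cons, List.tail_cons]
        rcases hx with rfl | hx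
        · exact p.end_mem_support
        · exact hx
    · exact fun hx => List.mem_of_mem_tail hx
  rw [this, Set.ncard_coe_finset, List.toFinset_card_of_nodup hc.support_nodup,
    List.length_tail, Walk.length_support]
  simpa using hodd

lemma covered_count {M C : G.Subgraph} (hM : M.IsMatching) :
    {v | ∃ w, C.Adj v w ∧ M.Adj v w}.ncard = 2 * (C.edgeSet ∩ M.edgeSet).ncard := by
  have h := count_edges (C.spanningCoe ⊓ M.spanningCoe) (by
    intro v w w' h1 h2
    simp only [inf_adj, Subgraph.spanningCoe_adj] at h1 h2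
    rw [← toF_of_adj hM h1.2, ← toF_of_adj hM h2.2])
  have h3 : (C.spanningCoe ⊓ M.spanningCoe).edgeSet = C.edgeSet ∩ M.edgeSet := by
    ext e
    induction e with
    | _ x y => simp
  rw [h3] at h
  rw [← h]
  rfl

lemma blossom_fwd {M C : G.Subgraph} {b : V} (hM : M.IsMatching) (h : IsBlossom M C b) :
    ∀ x ∈ C.verts, x ≠ b → C.Adj x (toF M x) := by
  obtain ⟨hC, ⟨t, h1, h2⟩, hb, h3⟩ := h
  have h4 := covered_count (C := C) hM
  rw [h2] at h4
  have h5 : {v | ∃ w, C.Adj v w ∧ M.Adj v w} ⊆ C.verts \ {b} := by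
    rintro v ⟨w, hw, hw'⟩
    refine ⟨C.edge_vert hw, ?_⟩
    rintro rfl
    exact h3 s(v, w) ⟨by simpa using hw, by simpa using hw'⟩ (by simp)
  have h6 : (C.verts \ {b}).ncard = 2 * t := by
    rw [Set.ncard_diff_singleton_of_mem hb, h1]; simp
  have h7 := Set.eq_of_subset_of_ncard_le h5 (by rw [h4, h6]) (Set.toFinite _)
  intro x hx hxb
  have : x ∈ {v | ∃ w, C.Adj v w ∧ M.Adj v w} := by rw [h7]; exact ⟨hx, hxb⟩
  obtain ⟨w, hw, hw'⟩ := this
  rwa [toF_of_adj hM hw']

lemma blossom_bwd {M C : G.Subgraph} {b : V} (hM : M.IsMatching) (hC : IsOddCycle G C)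
    (hb : b ∈ C.verts) (h : ∀ x ∈ C.verts, x ≠ b → C.Adj x (toF M x)) : IsBlossom M C b := by
  have h4 := covered_count (C := C) hM
  have hodd := oddCycle_card hC
  have hmem : ∀ x ∈ C.verts, x ≠ b → x ∈ {v | ∃ w, C.Adj v w ∧ M.Adj v w} := by
    intro x hx hxb
    have h1 := h x hx hxb
    refine ⟨_, h1, ?_⟩
    rw [toF_iff hM]
    exact ⟨rfl, (C.adj_sub h1).ne⟩
  have hsub : {v | ∃ w, C.Adj v w ∧ M.Adj v w} ⊆ C.verts := by
    rintro v ⟨w, hw, hw'⟩
    exact C.edge_vert hw
  have hnb : b ∉ {v | ∃ w, C.Adj v w ∧ M.Adj v w} := by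
    intro hbb
    have : {v | ∃ w, C.Adj v w ∧ M.Adj v w} = C.verts := by
      apply subset_antisymm hsub
      intro x hx
      by_cases hxb : x = b
      · subst hxb; exact hbb
      · exact hmem x hx hxb
    rw [this] at h4
    rw [h4] at hodd
    exact absurd hodd (by simp)
  have heq : {v | ∃ w, C.Adj v w ∧ M.Adj v w} = C.verts \ {b} := by
    apply subset_antisymm
    · intro x hx
      exact ⟨hsub hx, fun e => hnb (by rw [Set.mem_singleton_iff] at e; subst e; exact hx)⟩
    · rintro x ⟨hx, hxb⟩
      exact hmem x hx hxb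
  refine ⟨hC, ⟨(C.edgeSet ∩ M.edgeSet).ncard, ?_, rfl⟩, hb, ?_⟩
  · rw [← h4, heq, Set.ncard_diff_singleton_of_mem hb]
    have : 0 < C.verts.ncard := by
      rcases hodd with ⟨k, hk⟩; omega
    omega
  · rintro e ⟨he1, he2⟩ hbe
    obtain ⟨w, rfl⟩ := hbe
    exact hnb ⟨w, by simpa using he1, by simpa using he2⟩

omit [Fintype V] [DecidableEq V] in
lemma stm_of_walk {M : G.Subgraph} (hM : M.IsMatching) {C : Set V} {b : V} :
    ∀ (n : ℕ) (u : V) (r : G.Walk u b), r.length = 2 * n → r.IsPath →
      List.IsChain (fun e e' => (e ∈ M.edgeSet ↔ e' ∉ M.edgeSet)) r.edges →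
      (∀ e ∈ r.edges.head?, e ∉ M.edgeSet) → (∀ x ∈ r.support, x ∈ C → x = b) →
      Stm G C (toF M) b u r.support := by
  intro n
  induction n with
  | zero =>
    intro u r hr _ _ _ _
    cases r with
    | nil => exact Stm.nil
    | cons h p => simp at hr
  | succ n ih =>
    intro u r hr hp hch hhd hC
    cases r with
    | nil => simp at hr
    | @cons _ a _ h r =>
      cases r with
      | nil => simp at hr; omega
      | @cons _ v _ h' q =>
        simp only [Walk.length_cons] at hr
        rw [Walk.cons_isPath_iff, Walk.cons_isPath_iff] at hp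
        simp only [Walk.edges_cons, List.isChain_cons_cons] at hch
        simp only [Walk.edges_cons, List.head?_cons, Option.mem_def, Option.some.injEq,
          forall_eq'] at hhd
        have e1 : s(a, v) ∈ M.edgeSet := by
          by_contra hc
          exact hhd (hch.1.2 hc)
        have hq : List.IsChain (fun e e' => (e ∈ M.edgeSet ↔ e' ∉ M.edgeSet)) q.edges := by
          have := hch.2
          rw [List.isChain_cons] at this
          exact this.2
        have hq2 : ∀ e ∈ q.edges.head?, e ∉ M.edgeSet := by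
          have := hch.2
          rw [List.isChain_cons] at this
          intro e he
          exact (this.1 e he).1 e1
        have hq3 : ∀ x ∈ q.support, x ∈ C → x = b := fun x hx => hC x (by simp [hx])
        have hav : M.Adj a v := by simpa using e1
        have h5 := ih v q (by omega) hp.1.1 hq hq2 hq3
        have haC : a ∉ C := fun hc => by
          have := hC a (by simp) hc
          exact hp.1.2 (this ▸ q.end_mem_support)
        have huC : u ∉ C := fun hc => by
          have := hC u (by simp) hc
          exact hp.2 (by rw [this]; simp)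
        have hu2 : u ∉ q.support := fun hc => hp.2 (by simp [hc])
        rw [Walk.support_cons, Walk.support_cons]
        exact Stm.step h5 (toF_of_adj hM hav.symm) h'.symm h.symm hp.1.2 hu2 haC huC

omit [Fintype V] [DecidableEq V] in
lemma walk_of_stm {f : V → V} (hf : Mat G f) {C : Set V} {b u : V} {l : List V}
    (hs : Stm G C f b u l) : ∃ r : G.Walk u b, r.IsPath ∧ Even r.length ∧
      List.IsChain (fun e e' => (e ∈ (toM f hf).edgeSet ↔ e' ∉ (toM f hf).edgeSet)) r.edges ∧
      r.support = l := by
  induction hs with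
  | nil => exact ⟨Walk.nil, by simp, by simp, by simp, by simp⟩
  | @step v a d l hs h1 h2 h3 h4 h5 h6 h7 ih =>
    obtain ⟨r, hr1, hr2, hr3, hr4⟩ := ih
    refine ⟨Walk.cons h3.symm (Walk.cons h2.symm r), ?_, ?_, ?_, ?_⟩
    · rw [Walk.cons_isPath_iff, Walk.cons_isPath_iff, Walk.support_cons, hr4]
      refine ⟨⟨hr1, h4⟩, ?_⟩
      rw [List.mem_cons, not_or]
      exact ⟨h3.ne', h5⟩
    · rw [Walk.length_cons, Walk.length_cons]
      rw [add_assoc]
      exact hr2.add (by decide)
    · have hav : s(a, v) ∈ (toM f hf).edgeSet := by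
        rw [Subgraph.mem_edgeSet]
        exact ⟨by rw [← h1, hf.1], h2.ne'⟩
      have hda : s(d, a) ∉ (toM f hf).edgeSet := by
        rw [Subgraph.mem_edgeSet]
        rintro ⟨e1, e2⟩
        have : v = d := by rw [← hf.1 v, h1, ← e1, hf.1]
        exact h5 (by rw [← this, ← hr4]; exact r.start_mem_support)
      simp only [Walk.edges_cons, List.isChain_cons_cons]
      refine ⟨by tauto, ?_⟩
      rw [List.isChain_cons]
      refine ⟨fun e he => ?_, hr3⟩
      simp only [hav, true_iff]
      cases r with
      | nil => simp at he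
      | @cons _ x _ h' q =>
        simp only [Walk.edges_cons, List.head?_cons, Option.mem_def, Option.some.injEq] at he
        subst he
        rw [Subgraph.mem_edgeSet]
        rintro ⟨e1, e2⟩
        rw [h1] at e1
        apply h4
        rw [← hr4, e1]
        simp
    · rw [Walk.support_cons, Walk.support_cons, hr4]

/-- Membership in reach sets through flowers. -/
lemma mem_reach_iff {C : G.Subgraph} (hC : IsOddCycle G C) {x : V} :
    x ∈ reach G C ↔ ∃ f b u l, Fl G C f b u l ∧ (x ∈ C.verts ∨ x ∈ l) := by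
  constructor
  · rintro ⟨M, hM, b, u, hb, p, ⟨hp, hev, halt, hu, hCp⟩, hx⟩
    obtain ⟨k, hk⟩ := hev
    have h1 : Stm G C.verts (toF M) b u p.reverse.support := by
      apply stm_of_walk hM.1 k u p.reverse
      · rw [Walk.length_reverse]; omega
      · exact hp.reverse
      · rw [Walk.edges_reverse, List.isChain_reverse]
        unfold IsAlternating at halt
        refine halt.imp ?_
        intro a b; tauto
      · intro e he hem
        have : u ∈ e := by
          have h2 : ∀ (r : G.Walk u b), e ∈ r.edges.head? → u ∈ e := by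
            intro r hr
            cases r with
            | nil => simp at hr
            | cons h q =>
              simp only [Walk.edges_cons, List.head?_cons, Option.mem_def,
                Option.some.injEq] at hr
              rw [← hr]; simp
          exact h2 _ he
        obtain ⟨w, rfl⟩ := this
        rw [Subgraph.mem_edgeSet] at hem
        exact hu (M.edge_vert hem)
      · intro x hx
        rw [Walk.support_reverse, List.mem_reverse] at hx
        exact hCp x hx
    refine ⟨toF M, b, u, p.reverse.support, ⟨maxM_of_max hM, hb.2.2.1,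
      blossom_fwd hM.1 hb, h1, toF_not hu⟩, ?_⟩
    rw [Walk.support_reverse, List.mem_reverse]
    exact hx
  · rintro ⟨f, b, u, l, ⟨hmax, hbC, hbl, hs, hu⟩, hx⟩
    obtain ⟨r, hr1, hr2, hr3, hr4⟩ := walk_of_stm hmax.1 hs
    refine ⟨toM f hmax.1, max_of_maxM hmax, b, u, ?_, r.reverse, ⟨hr1.reverse, ?_, ?_, ?_, ?_⟩, ?_⟩
    · apply blossom_bwd (toM_matching _) hC hbC
      rw [toF_toM]
      exact hbl
    · rw [Walk.length_reverse]; exact hr2
    · unfold IsAlternating
      rw [Walk.edges_reverse, List.isChain_reverse]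
      refine hr3.imp ?_
      intro a b; tauto
    · exact fun h => h hu
    · intro x hx hxC
      rw [Walk.support_reverse, List.mem_reverse, hr4] at hx
      exact hs.eq_of_mem hx hxC
    · rw [Walk.support_reverse, List.mem_reverse, hr4]
      exact hx

end Pool.Agent.Run7.h502.FD
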