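import Mathlib

/-!
# Definitions: maximum matchings, odd cycles, blossoms, stems, reach sets, `R`-disjoint graphs
-/

set_option autoImplicit false

namespace Pool.Agent.Run7.h502.FD

open SimpleGraph

variable {V : Type*} (G : SimpleGraph V)

/-- `M` is a maximum matching of `G`. -/
def IsMaxMatching (M : G.Subgraph) : Prop :=
  M.IsMatching ∧ ∀ M' : G.Subgraph, M'.IsMatching → M'.edgeSet.ncard ≤ M.edgeSet.ncard

/-- `C` is an odd cycle of `G` (as a subgraph). -/
def IsOddCycle (C : G.Subgraph) : Prop :=
  ∃ (v : V) (c : G.Walk v v), c.IsCycle ∧ Odd c.length ∧ c.toSubgraph = C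

variable {G}

/-- `C` is an `M`-blossom with base `b`: an odd cycle with `2t+1` vertices, exactly `t` of whose
edges lie in `M`, and `b` is a vertex of `C` not covered by these `t` edges. -/
def IsBlossom (M C : G.Subgraph) (b : V) : Prop :=
  IsOddCycle G C ∧
    (∃ t : ℕ, C.verts.ncard = 2 * t + 1 ∧ (C.edgeSet ∩ M.edgeSet).ncard = t) ∧
    b ∈ C.verts ∧ ∀ e ∈ C.edgeSet ∩ M.edgeSet, b ∉ e

/-- Of any two consecutive edges of the walk, exactly one lies in `M`. -/
def IsAlternating (M : G.Subgraph) {u v : V} (p : G.Walk u v) : Prop :=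
  List.IsChain (fun e e' => (e ∈ M.edgeSet ↔ e' ∉ M.edgeSet)) p.edges

/-- `p` is an `M`-stem for the blossom `C` with base `b`: a path of even length, alternating with
respect to `M`, from `b` to a vertex uncovered by `M`, meeting `C` only at `b`. -/
def IsStem (M C : G.Subgraph) {b u : V} (p : G.Walk b u) : Prop :=
  p.IsPath ∧ Even p.length ∧ IsAlternating M p ∧ u ∉ M.verts ∧
    ∀ x ∈ p.support, x ∈ C.verts → x = b

variable (G) in
/-- The reach set of `C`: the union of the vertex sets of all `M`-flowers with blossom `C`, over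
all maximum matchings `M`. -/
def reach (C : G.Subgraph) : Set V :=
  {x | ∃ M : G.Subgraph, IsMaxMatching G M ∧ ∃ b u : V, IsBlossom M C b ∧
    ∃ p : G.Walk b u, IsStem M C p ∧ (x ∈ C.verts ∨ x ∈ p.support)}

variable (G) in
/-- `R`-disjoint graphs: there is an odd cycle, all reach sets of odd cycles are nonempty, and
the reach sets of distinct odd cycles are disjoint. -/
def RDisjoint : Prop :=
  (∃ C, IsOddCycle G C) ∧ (∀ C, IsOddCycle G C → (reach G C).Nonempty) ∧
    ∀ C C', IsOddCycle G C → IsOddCycle G C' → C ≠ C' → reach G C ∩ reach G C' = ∅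

variable (G) in
/-- The part `B(G)` of the flower decomposition: the vertices in no reach set. -/
def bipPart : Set V := {v | ∀ C, IsOddCycle G C → v ∉ reach G C}

end Pool.Agent.Run7.h502.FD
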