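import Pool.Agent.Run7.h502.FD.Inv

/-!
# The determinant factorization
-/

set_option autoImplicit false
set_option linter.unusedSectionVars false
set_option linter.unusedVariables false

namespace Pool.Agent.Run7.h502.FD

open SimpleGraph Finset Function Matrix

lemma det_blocks {V : Type*} [Fintype V] [DecidableEq V] {ι : Type*} [Fintype ι]
    [DecidableEq ι] {R : Type*} [CommRing R] (A : Matrix V V R) (β : V → ι)
    (h : ∀ σ : Equiv.Perm V, (∀ v, A (σ v) v ≠ 0) → ∀ v, β (σ v) = β v) :
    A.det = ∏ i, (A.submatrix (fun x : {v // β v = i} => x.1) (fun x => x.1)).det := by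
  classical
  let A' : Matrix V V R := fun i j => if β i = β j then A i j else 0
  have h1 : A.det = A'.det := by
    rw [Matrix.det_apply, Matrix.det_apply]
    refine Finset.sum_congr rfl fun σ _ => ?_
    congr 1
    by_cases hσ : ∀ v, A (σ v) v ≠ 0
    · refine Finset.prod_congr rfl fun v _ => ?_
      simp only [A']
      rw [if_pos (h σ hσ v)]
    · push Not at hσ
      obtain ⟨v, hv⟩ := hσ
      have e1 : ∏ i, A (σ i) i = 0 := Finset.prod_eq_zero (i := v) (Finset.mem_univ v) hv
      have e2 : ∏ i, A' (σ i) i = 0 :=
        Finset.prod_eq_zero (i := v) (Finset.mem_univ v) (by simp only [A']; rw [hv]; simp)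
      exact e1.trans e2.symm
  rw [h1]
  let e := Fintype.equivFin ι
  have hb : A'.BlockTriangular (fun v => e (β v)) := by
    intro i j hij
    simp only [A']
    rw [if_neg]
    intro e1
    have hij' : e (β j) < e (β i) := hij
    rw [e1] at hij'
    exact lt_irrefl _ hij'
  rw [hb.det_fintype]
  rw [← Equiv.prod_comp e]
  refine Finset.prod_congr rfl fun i _ => ?_
  let E : {v // β v = i} ≃ {v // e (β v) = e i} :=
    Equiv.subtypeEquivRight fun v => (e.injective.eq_iff).symm
  rw [← Matrix.det_submatrix_equiv_self E]
  congr 1
  ext x y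
  simp only [Matrix.submatrix_apply, Matrix.toSquareBlock_def, Matrix.of_apply, A']
  have hx : (E x).1 = x.1 := rfl
  have hy : (E y).1 = y.1 := rfl
  rw [hx, hy, if_pos (by rw [x.2, y.2])]

variable {V : Type*} (G : SimpleGraph V)

open Classical in
/-- **Factorization of the determinant of any matrix supported on the edges of `G`.** -/
theorem det_general [Fintype V] {R : Type*} [CommRing R] (hG : RDisjoint G)
    (A : Matrix V V R) (hA : ∀ i j, A i j ≠ 0 → G.Adj i j) :
    A.det = (A.submatrix (Subtype.val : bipPart G → V) Subtype.val).det *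
      ∏ C : {C : G.Subgraph // IsOddCycle G C},
        (A.submatrix (Subtype.val : reach G C.1 → V) Subtype.val).det := by
  let β : V → Option {C : G.Subgraph // IsOddCycle G C} := fun v =>
    if h : ∃ C : {C : G.Subgraph // IsOddCycle G C}, v ∈ reach G C.1 then some h.choose else none
  have hsome : ∀ v (C : {C : G.Subgraph // IsOddCycle G C}), β v = some C ↔ v ∈ reach G C.1 := by
    intro v C
    simp only [β]
    constructor
    · intro h
      split_ifs at h with h1
      · have := h1.choose_spec
        rw [Option.some.injEq] at h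
        rwa [h] at this
    · intro h
      have h1 : ∃ C : {C : G.Subgraph // IsOddCycle G C}, v ∈ reach G C.1 := ⟨C, h⟩
      rw [dif_pos h1]
      congr 1
      exact Subtype.ext (reach_eq hG h1.choose.2 C.2 h1.choose_spec h)
  have hnone : ∀ v, β v = none ↔ v ∈ bipPart G := by
    intro v
    constructor
    · intro h C hC hv
      have := (hsome v ⟨C, hC⟩).2 hv
      rw [h] at this
      exact absurd this (by simp)
    · intro h
      cases hb : β v with
      | none => rfl
      | some C => exact absurd ((hsome v C).1 hb) (h C.1 C.2)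
  have hperm : ∀ σ : Equiv.Perm V, (∀ v, A (σ v) v ≠ 0) → ∀ v, β (σ v) = β v := by
    intro σ hσ v
    have h1 : ∀ v, G.Adj v (σ v) := fun v => (hA _ _ (hσ v)).symm
    have h2 : ∀ v, G.Adj v (σ⁻¹ v) := by
      intro v
      have := h1 (σ⁻¹ v)
      rw [show σ (σ⁻¹ v) = v from σ.apply_symm_apply v] at this
      exact this.symm
    cases hb : β v with
    | some C =>
      rw [hsome] at hb ⊢
      exact perm_preserves h1 hG C.2 hb
    | none =>
      rw [hnone] at hb ⊢
      intro C hC hv
      apply hb C hC
      have := perm_preserves h2 hG hC hv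
      rwa [show σ⁻¹ (σ v) = v from σ.symm_apply_apply v] at this
  rw [det_blocks A β hperm, Fintype.prod_option]
  congr 1
  · let E : bipPart G ≃ {v // β v = none} := Equiv.subtypeEquivRight fun v => (hnone v).symm
    rw [← Matrix.det_submatrix_equiv_self E]
    congr 1
  · refine Finset.prod_congr rfl fun C _ => ?_
    let E : reach G C.1 ≃ {v // β v = some C} :=
      Equiv.subtypeEquivRight fun v => (hsome v C).symm
    rw [← Matrix.det_submatrix_equiv_self E]
    congr 1

open Classical in
/-- **The determinant formula for the flower decomposition.** -/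
theorem det_flower [Fintype V] (hG : RDisjoint G) :
    (G.adjMatrix ℝ).det = ((G.induce (bipPart G)).adjMatrix ℝ).det *
      ∏ C : {C : G.Subgraph // IsOddCycle G C}, ((G.induce (reach G C.1)).adjMatrix ℝ).det := by
  have h := det_general G hG (G.adjMatrix ℝ) (by
    intro i j hij
    rw [adjMatrix_apply] at hij
    by_contra hc
    rw [if_neg hc] at hij
    exact hij rfl)
  rw [h]
  congr 1

end Pool.Agent.Run7.h502.FD
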