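import Pool.Agent.Run7.h502.FD.Base
import Pool.Agent.Run7.h502.FD.Color

/-!
# Flowers in the involution picture
-/

set_option autoImplicit false
set_option linter.unusedSectionVars false
set_option linter.unusedVariables false

namespace Pool.Agent.Run7.h502.FD

open SimpleGraph Finset

variable {V : Type*} [Fintype V] [DecidableEq V] {G : SimpleGraph V}

/-- Alternating paths from `b`, avoiding `C`, listed from the end to `b`. -/
inductive Stm (G : SimpleGraph V) (C : Set V) (f : V → V) (b : V) : V → List V → Prop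
  | nil : Stm G C f b b [b]
  | step {v a d : V} {l : List V} : Stm G C f b v l → f v = a → G.Adj v a → G.Adj a d →
      a ∉ l → d ∉ l → a ∉ C → d ∉ C → Stm G C f b d (d :: a :: l)

/-- Flowers. -/
structure Fl (G : SimpleGraph V) (C : G.Subgraph) (f : V → V) (b u : V) (l : List V) : Prop where
  max : MaxM G f
  bC : b ∈ C.verts
  bl : ∀ x ∈ C.verts, x ≠ b → C.Adj x (f x)
  stm : Stm G C.verts f b u l
  hu : f u = u

variable {C : Set V} {f : V → V} {b u : V} {l : List V}

lemma Stm.mem_end (h : Stm G C f b u l) : u ∈ l := by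
  cases h <;> simp

lemma Stm.mem_b (h : Stm G C f b u l) : b ∈ l := by
  induction h with
  | nil => simp
  | step _ _ _ _ _ _ _ _ ih => simp [ih]

lemma Stm.eq_of_mem (h : Stm G C f b u l) {x : V} (hx : x ∈ l) (hC : x ∈ C) : x = b := by
  induction h with
  | nil => simpa using hx
  | step _ _ _ _ _ _ h1 h2 ih =>
    simp only [List.mem_cons] at hx
    rcases hx with rfl | rfl | hx
    · exact absurd hC h2
    · exact absurd hC h1
    · exact ih hx

lemma Stm.congr (h : Stm G C f b u l) {f' : V → V} (hf : ∀ x ∈ l, x ≠ u → f' x = f x) :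
    Stm G C f' b u l := by
  induction h with
  | nil => exact Stm.nil
  | @step v a d l hs h1 h2 h3 h4 h5 h6 h7 ih =>
    refine Stm.step (ih fun x hx hxv => ?_) ?_ h2 h3 h4 h5 h6 h7
    · exact hf x (by simp [hx]) (fun e => h5 (e ▸ hx))
    · rw [hf v (by simp [hs.mem_end]) (fun e => h5 (e ▸ hs.mem_end)), h1]

lemma Stm.closed (h : Stm G C f b u l) (hf : ∀ v, f (f v) = v) {x : V} (hx : x ∈ l)
    (hxu : x ≠ u) : f x ∈ l := by
  induction h with
  | nil => simp only [List.mem_singleton] at hx; exact absurd hx hxu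
  | @step v a d l hs h1 h2 h3 h4 h5 h6 h7 ih =>
    simp only [List.mem_cons] at hx
    rcases hx with rfl | rfl | hx
    · exact absurd rfl hxu
    · rw [← h1, hf]
      simp [hs.mem_end]
    · by_cases hv : x = v
      · subst hv; rw [h1]; simp
      · have := ih hx hv
        simp [this]

/-- Prefixes. -/
lemma Stm.prefix_or (h : Stm G C f b u l) {x : V} (hx : x ∈ l) :
    (∃ l', Stm G C f b x l' ∧ (∀ y ∈ l', y ∈ l)) ∨
      ∃ v l', Stm G C f b v l' ∧ f v = x ∧ x ∉ l' ∧ u ∉ l' ∧ (∀ y ∈ l', y ∈ l) := by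
  induction h with
  | nil =>
    simp only [List.mem_singleton] at hx
    subst hx
    exact Or.inl ⟨_, Stm.nil, fun y hy => hy⟩
  | @step v a d l hs h1 h2 h3 h4 h5 h6 h7 ih =>
    simp only [List.mem_cons] at hx
    rcases hx with rfl | rfl | hx
    · exact Or.inl ⟨_, Stm.step hs h1 h2 h3 h4 h5 h6 h7, fun y hy => hy⟩
    · exact Or.inr ⟨v, l, hs, h1, h4, h5, fun y hy => by simp [hy]⟩
    · rcases ih hx with ⟨l', h8, h9⟩ | ⟨w, l', h8, h9, h10, h11, h12⟩
      · exact Or.inl ⟨l', h8, fun y hy => by simp [h9 y hy]⟩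
      · exact Or.inr ⟨w, l', h8, h9, h10, fun e => h5 (h12 _ e), fun y hy => by simp [h12 y hy]⟩

/-- Colours along a stem. -/
lemma Stm.color (h : Stm G C f b u l) {R : Set V} {e : Sym2 V} (hl : ∀ x ∈ l, x ∈ R)
    (he : ∀ x ∈ e, x ∈ C) {χ : V → Bool}
    (hχ : ∀ x y, x ∈ R → y ∈ R → G.Adj x y → s(x, y) ≠ e → χ x ≠ χ y) : χ u = χ b := by
  induction h with
  | nil => rfl
  | @step v a d l hs h1 h2 h3 h4 h5 h6 h7 ih =>
    have e1 := ih (fun x hx => hl x (by simp [hx]))
    have e2 : χ v ≠ χ a := hχ v a (hl v (by simp [hs.mem_end])) (hl a (by simp)) h2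
      (fun e => h6 (he a (by rw [← e]; simp)))
    have e3 : χ a ≠ χ d := hχ a d (hl a (by simp)) (hl d (by simp)) h3
      (fun e => h6 (he a (by rw [← e]; simp)))
    rw [← e1]
    revert e2 e3
    cases χ v <;> cases χ a <;> cases χ d <;> simp

variable {D : G.Subgraph}

lemma Fl.closed (h : Fl G D f b u l) {x : V} (hx : x ∈ l ∨ x ∈ D.verts) :
    f x ∈ l ∨ f x ∈ D.verts := by
  by_cases hxl : x ∈ l
  · by_cases hxu : x = u
    · subst hxu; rw [h.hu]; exact Or.inl hxl
    · exact Or.inl (h.stm.closed h.max.1.1 hxl hxu)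
  · have hxD := hx.resolve_left hxl
    have hxb : x ≠ b := fun e => hxl (e ▸ h.stm.mem_b)
    exact Or.inr (D.edge_vert (h.bl x hxD hxb).symm)

/-- Extending a flower. -/
lemma Fl.extend (h : Fl G D f b u l) {y : V} (hy : G.Adj u y) (hyl : y ∉ l)
    (hyD : y ∉ D.verts) : Fl G D (exch f u y) b (f y) (f y :: y :: l) := by
  have hyu : y ≠ u := hy.ne'
  have hfy : f y ≠ y := h.max.ne h.hu hy
  have hfyu : f y ≠ u := fun e => hyu (h.max.1.inj (e.trans h.hu.symm))
  have hcl : ¬ (f y ∈ l ∨ f y ∈ D.verts) := fun hc => by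
    have := h.closed hc
    rw [h.max.1.inv] at this
    exact this.elim hyl hyD
  rw [not_or] at hcl
  refine ⟨h.max.exch h.hu hy, h.bC, ?_, ?_, exch_fy hfyu hfy⟩
  · intro x hx hxb
    have h1 : x ≠ u := fun e => hxb (h.stm.eq_of_mem (e ▸ h.stm.mem_end) hx)
    have h2 : x ≠ y := fun e => hyD (e ▸ hx)
    have h3 : x ≠ f y := fun e => hcl.2 (e ▸ hx)
    rw [exch_other h1 h2 h3]
    exact h.bl x hx hxb
  · refine Stm.step (h.stm.congr fun x hx hxu => ?_) (exch_u _ _ _) hy (h.max.1.2 y hfy)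
      hyl hcl.1 hyD hcl.2
    exact exch_other hxu (fun e => hyl (e ▸ hx)) (fun e => hcl.1 (e ▸ hx))

/-- Rotating a trivial flower. -/
lemma Fl.rotate (h : Fl G D f b b [b]) {y : V} (hy : D.Adj b y) :
    Fl G D (exch f b y) (f y) (f y) [f y] := by
  have hadj : G.Adj b y := D.adj_sub hy
  have hyb : y ≠ b := hadj.ne'
  have hyD : y ∈ D.verts := D.edge_vert hy.symm
  have h1 := h.bl y hyD hyb
  have hfyb : f y ≠ b := fun e => hyb (h.max.1.inj (e.trans h.hu.symm))
  refine ⟨h.max.exch h.hu hadj, D.edge_vert h1.symm, ?_, Stm.nil,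
    exch_fy hfyb (h.max.ne h.hu hadj)⟩
  intro x hx hxf
  by_cases e1 : x = b
  · subst e1; rw [exch_u]; exact hy
  by_cases e2 : x = y
  · subst e2; rw [exch_y]; exact hy.symm
  rw [exch_other e1 e2 hxf]
  exact h.bl x hx e1

/-- Truncating a flower at an odd vertex that is adjacent to the end. -/
lemma Fl.trunc (h : Fl G D f b u l) {x v : V} {l' : List V} (hadj : G.Adj u x)
    (hs : Stm G D.verts f b v l') (hvx : f v = x) (hx : x ∉ l') (hul : u ∉ l')
    (hxD : x ∉ D.verts) (hvu : v ≠ u)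
    (huD : u ∉ D.verts) : Fl G D (exch f u x) b v l' := by
  have hfx : f x = v := by rw [← hvx, h.max.1.inv]
  have hxv : x ≠ v := fun e => hx (e ▸ hs.mem_end)
  have hkey : exch f u x v = v := by
    have := exch_fy (f := f) (u := u) (y := x) (by rw [hfx]; exact hvu)
      (by rw [hfx]; exact hxv.symm)
    rwa [hfx] at this
  refine ⟨h.max.exch h.hu hadj, h.bC, ?_, ?_, hkey⟩
  · intro y hy hyb
    have h1 : y ≠ v := fun e => hyb (hs.eq_of_mem (e ▸ hs.mem_end) hy)
    have h2 : y ≠ u := fun e => huD (e ▸ hy)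
    have h3 : y ≠ x := fun e => hxD (e ▸ hy)
    rw [exch_other h2 h3 (by rwa [hfx])]
    exact h.bl y hy hyb
  · refine hs.congr fun y hy hyv => ?_
    exact exch_other (fun e => hul (e ▸ hy)) (fun e => hx (e ▸ hy)) (by rwa [hfx])

/-- Retracting a flower by one step. -/
lemma Fl.retract {v a d : V} (hmax : MaxM G f) (hbC : b ∈ D.verts)
    (hbl : ∀ x ∈ D.verts, x ≠ b → D.Adj x (f x)) (hd : f d = d)
    (hs : Stm G D.verts f b v l) (h1 : f v = a) (h2 : G.Adj v a) (h3 : G.Adj a d)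
    (h4 : a ∉ l) (h5 : d ∉ l) (h6 : a ∉ D.verts) (h7 : d ∉ D.verts) :
    Fl G D (exch f d a) b v l := by
  have hvd : v ≠ d := fun e => h5 (e ▸ hs.mem_end)
  refine Fl.trunc (l := d :: a :: l) ⟨hmax, hbC, hbl, Stm.step hs h1 h2 h3 h4 h5 h6 h7, hd⟩
    h3.symm hs h1 h4 h5 h6 hvd h7

/-- Every vertex of the stem can be uncovered, or is adjacent to one that can. -/
lemma stem_vertex : ∀ (n : ℕ) {f : V → V} {u : V} {l : List V}, l.length ≤ n →
    Fl G D f b u l → ∀ x ∈ l,
    (∃ g, MaxM G g ∧ g x = x) ∨ ∃ d, G.Adj x d ∧ ∃ g, MaxM G g ∧ g d = d := by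
  intro n
  induction n with
  | zero =>
    intro f u l hn h x hx
    rw [Nat.le_zero, List.length_eq_zero_iff] at hn
    subst hn
    simp at hx
  | succ n ih =>
    intro f u l hn h x hx
    obtain ⟨hmax, hbC, hbl, hs, hu⟩ := h
    cases hs with
    | nil =>
      simp only [List.mem_singleton] at hx
      subst hx
      exact Or.inl ⟨f, hmax, hu⟩
    | @step v a _ l hs h1 h2 h3 h4 h5 h6 h7 =>
      simp only [List.mem_cons] at hx
      rcases hx with rfl | rfl | hx
      · exact Or.inl ⟨f, hmax, hu⟩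
      · exact Or.inr ⟨u, h3, f, hmax, hu⟩
      · refine ih (by simp at hn; omega) (Fl.retract hmax hbC hbl hu hs h1 h2 h3 h4 h5 h6 h7) x hx

end Pool.Agent.Run7.h502.FD
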