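import Pool.Agent.Run7.h502.FD.Perm

/-!
# Permutations along edges preserve the reach sets
-/

set_option autoImplicit false
set_option linter.unusedSectionVars false
set_option linter.unusedVariables false

namespace Pool.Agent.Run7.h502.FD

open SimpleGraph Finset Function

variable {V : Type*} [Fintype V] [DecidableEq V] {G : SimpleGraph V}

lemma fx_card (f : V → V) : fx f = Nat.card {v // f v = v} := by
  rw [Nat.card_eq_fintype_card, Fintype.card_subtype]
  rfl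

/-- The uncovered vertex in the reach set of `C`. -/
lemma exists_unc (hG : RDisjoint G) {M : V → V} (hM : MaxM G M)
    (C : {C : G.Subgraph // IsOddCycle G C}) : ∃ v : {v // M v = v}, v.1 ∈ reach G C.1 := by
  obtain ⟨f, b, u, l, h, hu⟩ := key hG C.2 hM
  exact ⟨⟨u, hu⟩, (mem_reach_iff C.2).2 ⟨f, b, u, l, h, Or.inr h.stm.mem_end⟩⟩

/-- The uncovered vertex as a function. -/
noncomputable def unc (hG : RDisjoint G) {M : V → V} (hM : MaxM G M)
    (C : {C : G.Subgraph // IsOddCycle G C}) : {v // M v = v} := (exists_unc hG hM C).choose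

lemma unc_mem (hG : RDisjoint G) {M : V → V} (hM : MaxM G M)
    (C : {C : G.Subgraph // IsOddCycle G C}) : (unc hG hM C).1 ∈ reach G C.1 :=
  (exists_unc hG hM C).choose_spec

lemma unc_inj (hG : RDisjoint G) {M : V → V} (hM : MaxM G M) : Injective (unc hG hM) := by
  intro C C' h
  have h1 := unc_mem hG hM C
  have h2 := unc_mem hG hM C'
  rw [← h] at h2
  exact Subtype.ext (reach_eq hG C.2 C'.2 h1 h2)

lemma card_le (hG : RDisjoint G) {M : V → V} (hM : MaxM G M) :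
    Nat.card {C : G.Subgraph // IsOddCycle G C} ≤ fx M := by
  rw [fx_card]
  exact Nat.card_le_card_of_injective _ (unc_inj hG hM)

variable {σ : Equiv.Perm V} (hσ : ∀ v, G.Adj v (σ v))
include hσ

/-- The odd cycle of an uncovered vertex. -/
noncomputable def phi (x : V) (v : {v // Nm σ x v = v}) : {C : G.Subgraph // IsOddCycle G C} :=
  ⟨(cyc hσ v.1).toSubgraph, cyc_odd hσ v.1 (Nm_fix hσ v.2).1⟩

lemma phi_inj (x : V) : Injective (phi hσ x) := by
  intro v v' h
  have h1 : (cyc hσ v.1).toSubgraph = (cyc hσ v'.1).toSubgraph := congrArg Subtype.val h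
  have h2 : v'.1 ∈ (cyc hσ v.1).toSubgraph.verts := by rw [h1]; exact cyc_mem hσ _
  rw [cyc_verts] at h2
  obtain ⟨i, -, hi⟩ := h2
  have h3 : σ.SameCycle v.1 v'.1 := by rw [← hi]; exact same_iter σ i v.1
  apply Subtype.ext
  rw [← (Nm_fix hσ v.2).2, ← (Nm_fix hσ v'.2).2]
  exact rp_eq σ x h3

lemma card_ge (x : V) : fx (Nm σ x) ≤ Nat.card {C : G.Subgraph // IsOddCycle G C} := by
  rw [fx_card]
  exact Nat.card_le_card_of_injective _ (phi_inj hσ x)

omit hσ in
lemma exists_max (hG : RDisjoint G) : ∃ M : V → V, MaxM G M := by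
  obtain ⟨C, hC⟩ := hG.1
  obtain ⟨y, hy⟩ := hG.2.1 C hC
  rw [mem_reach_iff hC] at hy
  obtain ⟨f, b, u, l, h, -⟩ := hy
  exact ⟨f, h.max⟩

lemma Nm_max (hG : RDisjoint G) (x : V) : MaxM G (Nm σ x) := by
  obtain ⟨M, hM⟩ := exists_max hG
  refine ⟨Nm_mat hσ x, fun g hg => ?_⟩
  have h1 := card_ge hσ x
  have h2 := card_le hG hM
  have h3 := hM.2 g hg
  omega

lemma card_eq (hG : RDisjoint G) {M : V → V} (hM : MaxM G M) :
    Nat.card {C : G.Subgraph // IsOddCycle G C} = fx M := by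
  apply le_antisymm (card_le hG hM)
  obtain ⟨C, v, c, -⟩ := hG.1
  have h1 := card_ge hσ v
  have h2 := hM.2 _ (Nm_mat hσ v)
  omega

lemma unc_bij (hG : RDisjoint G) {M : V → V} (hM : MaxM G M) : Bijective (unc hG hM) := by
  refine (Nat.bijective_iff_injective_and_card _).2 ⟨unc_inj hG hM, ?_⟩
  rw [card_eq hσ hG hM, fx_card]

lemma phi_surj (hG : RDisjoint G) (x : V) : Surjective (phi hσ x) := by
  refine ((Nat.bijective_iff_injective_and_card _).2 ⟨phi_inj hσ x, ?_⟩).2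
  rw [card_eq hσ hG (Nm_max hσ hG x), fx_card]

lemma S1 (hG : RDisjoint G) {M : V → V} (hM : MaxM G M) {v : V} (hv : M v = v) :
    ∃ C, IsOddCycle G C ∧ v ∈ reach G C := by
  obtain ⟨C, hC⟩ := (unc_bij hσ hG hM).2 ⟨v, hv⟩
  refine ⟨C.1, C.2, ?_⟩
  have := unc_mem hG hM C
  rwa [hC] at this

lemma S2 (hG : RDisjoint G) {M : V → V} (hM : MaxM G M) {C : G.Subgraph} (hC : IsOddCycle G C)
    {v w : V} (hv : M v = v) (hw : M w = w) (hvC : v ∈ reach G C) (hwC : w ∈ reach G C) :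
    v = w := by
  have key : ∀ v, M v = v → v ∈ reach G C → v = (unc hG hM ⟨C, hC⟩).1 := by
    intro v hv hvC
    obtain ⟨C', hC'⟩ := (unc_bij hσ hG hM).2 ⟨v, hv⟩
    have h1 := unc_mem hG hM C'
    rw [hC'] at h1
    have h2 : C' = ⟨C, hC⟩ := Subtype.ext (reach_eq hG C'.2 hC h1 hvC)
    rw [← h2, hC']
  rw [key v hv hvC, key w hw hwC]

lemma odd_of_mem (hG : RDisjoint G) {C : G.Subgraph} (hC : IsOddCycle G C) {x : V}
    (hx : x ∈ C.verts) : Odd (Ln σ x) := by
  obtain ⟨v, hv⟩ := phi_surj hσ hG x ⟨C, hC⟩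
  have h1 : (cyc hσ v.1).toSubgraph = C := congrArg Subtype.val hv
  rw [← h1, cyc_verts] at hx
  obtain ⟨i, -, hi⟩ := hx
  rw [← hi, Ln_iter]
  exact (Nm_fix hσ v.2).1

lemma S3 (hG : RDisjoint G) {C : G.Subgraph} (hC : IsOddCycle G C) {x : V}
    (hx : x ∈ C.verts) : ∃ g, MaxM G g ∧ g x = x :=
  ⟨_, Nm_max hσ hG x, Nm_self_odd (odd_of_mem hσ hG hC hx)⟩

/-- Neighbours of uncoverable vertices. -/
lemma nbr (hG : RDisjoint G) {C : G.Subgraph} (hC : IsOddCycle G C) {x y : V}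
    (hx : x ∈ reach G C) {g : V → V} (hg : MaxM G g) (hgx : g x = x) (hxy : G.Adj x y) :
    y ∈ reach G C := by
  obtain ⟨f, b, u, l, h, hu⟩ := key hG hC hg
  have hur : u ∈ reach G C := (mem_reach_iff hC).2 ⟨f, b, u, l, h, Or.inr h.stm.mem_end⟩
  have hux : u = x := S2 hσ hG hg hC hu hgx hur hx
  subst hux
  by_cases h1 : y ∈ l
  · exact (mem_reach_iff hC).2 ⟨f, b, u, l, h, Or.inr h1⟩
  by_cases h2 : y ∈ C.verts
  · exact verts_sub hG hC h2
  exact (mem_reach_iff hC).2 ⟨_, _, _, _, h.extend hxy h1 h2, Or.inr (by simp)⟩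

/-- Maximum matchings preserve reach sets. -/
lemma max_preserves (hG : RDisjoint G) {C : G.Subgraph} (hC : IsOddCycle G C) {M : V → V}
    (hM : MaxM G M) {x : V} (hx : x ∈ reach G C) : M x ∈ reach G C := by
  by_cases hMx : M x = x
  · rwa [hMx]
  have hadj : G.Adj x (M x) := hM.1.2 x hMx
  by_cases hexp : ∃ g, MaxM G g ∧ g x = x
  · obtain ⟨g, hg, hgx⟩ := hexp
    exact nbr hσ hG hC hx hg hgx hadj
  obtain ⟨f, b, u, l, h, hxl⟩ := (mem_reach_iff hC).1 hx
  rcases hxl with hxC | hxl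
  · exact absurd (S3 hσ hG hC hxC) hexp
  rcases stem_vertex _ le_rfl h x hxl with h1 | ⟨d, hd, k, hk, hkd⟩
  · exact absurd h1 hexp
  push Not at hexp
  obtain ⟨g, hg, hgM⟩ := exposable hd hexp hk hkd hM
  obtain ⟨C', hC', hMC'⟩ := S1 hσ hG hg hgM
  have h2 := nbr hσ hG hC' hMC' hg hgM hadj.symm
  rw [reach_eq hG hC hC' hx h2]
  exact hMC'

/-- **Permutations along edges preserve reach sets.** -/
theorem perm_preserves (hG : RDisjoint G) {C : G.Subgraph} (hC : IsOddCycle G C) {x : V}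
    (hx : x ∈ reach G C) : σ x ∈ reach G C := by
  rcases Nat.even_or_odd (Ln σ x) with h | h
  · have h1 := max_preserves hσ hG hC (Nm_max hσ hG x) hx
    rwa [Nm_self_even h] at h1
  · have h1 := cyc_odd hσ x h
    have h2 := reach_eq hG hC h1 hx (verts_sub hG h1 (cyc_mem hσ x))
    rw [h2]
    exact verts_sub hG h1 (cyc_mem_apply hσ x)

end Pool.Agent.Run7.h502.FD
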