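import Pool.Agent.Run7.h502.FD.Conv

/-!
# Every maximum matching uncovers a vertex of every reach set
-/

set_option autoImplicit false
set_option linter.unusedSectionVars false
set_option linter.unusedVariables false

namespace Pool.Agent.Run7.h502.FD

open SimpleGraph Finset

variable {V : Type*} [Fintype V] [DecidableEq V] {G : SimpleGraph V}

lemma verts_sub (hG : RDisjoint G) {C : G.Subgraph} (hC : IsOddCycle G C) {x : V}
    (hx : x ∈ C.verts) : x ∈ reach G C := by
  obtain ⟨y, hy⟩ := hG.2.1 C hC
  rw [mem_reach_iff hC] at hy ⊢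
  obtain ⟨f, b, u, l, h, -⟩ := hy
  exact ⟨f, b, u, l, h, Or.inl hx⟩

lemma reach_eq (hG : RDisjoint G) {C C' : G.Subgraph} (hC : IsOddCycle G C)
    (hC' : IsOddCycle G C') {x : V} (h1 : x ∈ reach G C) (h2 : x ∈ reach G C') : C = C' := by
  by_contra h
  have := hG.2.2 C C' hC hC' h
  have h3 : x ∈ reach G C ∩ reach G C' := ⟨h1, h2⟩
  rw [this] at h3
  exact h3

/-- The graph on the reach set without one edge of the cycle is bipartite. -/
lemma coloring (hG : RDisjoint G) {C : G.Subgraph} (hC : IsOddCycle G C) {e : Sym2 V}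
    (he : e ∈ C.edgeSet) : ∃ χ : V → Bool, ∀ x y, x ∈ reach G C → y ∈ reach G C →
      G.Adj x y → s(x, y) ≠ e → χ x ≠ χ y := by
  let H : SimpleGraph V :=
    { Adj := fun x y => G.Adj x y ∧ x ∈ reach G C ∧ y ∈ reach G C ∧ s(x, y) ≠ e
      symm := ⟨fun x y h => ⟨h.1.symm, h.2.2.1, h.2.1, by rw [Sym2.eq_swap]; exact h.2.2.2⟩⟩
      loopless := ⟨fun x h => h.1.ne rfl⟩ }
  by_cases hH : H.Colorable 2
  · obtain ⟨c⟩ := hH
    refine ⟨fun v => decide (c v = 0), fun x y hx hy hxy hne => ?_⟩
    have h1 : c x ≠ c y := c.valid (show H.Adj x y from ⟨hxy, hx, hy, hne⟩)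
    intro h2
    apply h1
    rw [decide_eq_decide] at h2
    revert h2
    generalize c x = i
    generalize c y = j
    revert i j
    decide
  · obtain ⟨v, c, hc, hodd⟩ := exists_oddCycle hH
    exfalso
    have hle : H ≤ G := fun x y h => h.1
    have hC' : IsOddCycle G (c.mapLe hle).toSubgraph := by
      refine ⟨v, c.mapLe hle, hc.mapLe hle, ?_, rfl⟩
      simpa using hodd
    have hv : v ∈ (c.mapLe hle).toSubgraph.verts := by
      rw [Walk.mem_verts_toSubgraph]; exact Walk.start_mem_support _
    have hvR : v ∈ reach G C := by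
      cases c with
      | nil => exact absurd hc Walk.not_isCycle_nil
      | cons h p => exact h.2.1
    have heq := reach_eq hG hC hC' hvR (verts_sub hG hC' hv)
    rw [heq, Walk.mem_edges_toSubgraph, Walk.edges_mapLe_eq_edges] at he
    have h3 := Walk.edges_subset_edgeSet c he
    induction e with
    | _ x y => exact h3.2.2.2 rfl

/-- An edge with the arc property, with a colouring. -/
lemma arc_color (hG : RDisjoint G) {C : G.Subgraph} (hC : IsOddCycle G C) {x y : V}
    (hx : x ∈ C.verts) (hy : y ∈ C.verts) : ∃ e ∈ C.edgeSet, ∃ χ : V → Bool,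
      (∀ x y, x ∈ reach G C → y ∈ reach G C → G.Adj x y → s(x, y) ≠ e → χ x ≠ χ y) ∧
      χ x = χ y := by
  obtain ⟨e, he, h⟩ := arc hC hx hy
  obtain ⟨χ, hχ⟩ := coloring hG hC he
  refine ⟨e, he, χ, hχ, h χ fun a b hab hne => ?_⟩
  exact hχ a b (verts_sub hG hC (C.edge_vert hab)) (verts_sub hG hC (C.edge_vert hab.symm))
    (C.adj_sub hab) hne

lemma mem_verts_of_mem_edge {C : G.Subgraph} {e : Sym2 V} (he : e ∈ C.edgeSet) :
    ∀ x ∈ e, x ∈ C.verts := by
  intro x hx
  obtain ⟨w, rfl⟩ := hx
  rw [Subgraph.mem_edgeSet] at he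
  exact C.edge_vert he

lemma Stm.eq_nil {C : Set V} {f : V → V} {b : V} {l : List V} (h : Stm G C f b b l) :
    l = [b] := by
  cases h with
  | nil => rfl
  | step hs _ _ _ _ h5 _ _ => exact absurd hs.mem_b h5

lemma key_aux (hG : RDisjoint G) {C : G.Subgraph} (hC : IsOddCycle G C) {M : V → V}
    (hM : MaxM G M) : ∀ (n : ℕ) (f : V → V) (b u : V) (l : List V), Fl G C f b u l →
      dis f M ≤ n → ∃ f b u l, Fl G C f b u l ∧ M u = u := by
  intro n
  induction n using Nat.strong_induction_on with
  | _ n ih =>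
    intro f b u l h hn
    by_cases hu : M u = u
    · exact ⟨f, b, u, l, h, hu⟩
    obtain ⟨y, hy⟩ : ∃ y, M u = y := ⟨_, rfl⟩
    have hadj : G.Adj u y := hy ▸ hM.1.2 u hu
    have hyu : y ≠ u := hadj.ne'
    have hfy : f y ≠ y := h.max.ne h.hu hadj
    have hdis : dis (exch f u y) M < n :=
      lt_of_lt_of_le (dis_exch h.max.1 hM.1 h.hu hy hyu hfy) hn
    have hlR : ∀ x ∈ l, x ∈ reach G C := fun x hx =>
      (mem_reach_iff hC).2 ⟨f, b, u, l, h, Or.inr hx⟩
    by_cases hyl : y ∈ l
    · rcases h.stm.prefix_or hyl with ⟨l', hs', hsub⟩ | ⟨v, l', hs', hv, hy1, hu1, hsub⟩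
      · exfalso
        obtain ⟨e, he, χ, hχ, -⟩ := arc_color hG hC h.bC h.bC
        have h1 := h.stm.color hlR (mem_verts_of_mem_edge he) hχ
        have h2 := hs'.color (fun x hx => hlR x (hsub x hx)) (mem_verts_of_mem_edge he) hχ
        refine hχ u y (hlR u h.stm.mem_end) (hlR y hyl) hadj ?_ (by rw [h1, h2])
        intro heq
        have h3 := mem_verts_of_mem_edge he
        rw [← heq] at h3
        have h4 := h.stm.eq_of_mem h.stm.mem_end (h3 u (by simp))
        have h5 := h.stm.eq_of_mem hyl (h3 y (by simp))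
        exact hyu (by rw [h4, h5])
      · have hyC : y ∉ C.verts := fun hc => by
          have := h.stm.eq_of_mem hyl hc
          exact hy1 (this ▸ hs'.mem_b)
        have huC : u ∉ C.verts := fun hc => by
          have := h.stm.eq_of_mem h.stm.mem_end hc
          exact hu1 (by rw [this]; exact hs'.mem_b)
        have hvu : v ≠ u := fun e => hyu (by rw [← hv, e, h.hu])
        exact ih _ hdis _ _ _ _ (h.trunc hadj hs' hv hy1 hu1 hyC hvu huC) le_rfl
    · by_cases hyC : y ∈ C.verts
      · by_cases huC : u ∈ C.verts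
        · have hub : u = b := h.stm.eq_of_mem h.stm.mem_end huC
          subst hub
          have hl := h.stm.eq_nil
          subst hl
          have hCadj : C.Adj u y := by
            by_contra hcon
            obtain ⟨e, he, χ, hχ, h1⟩ := arc_color hG hC huC hyC
            refine hχ u y (verts_sub hG hC huC) (verts_sub hG hC hyC) hadj ?_ h1
            intro heq
            rw [← heq, Subgraph.mem_edgeSet] at he
            exact hcon he
          exact ih _ hdis _ _ _ _ (h.rotate hCadj) le_rfl
        · exfalso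
          obtain ⟨e, he, χ, hχ, h1⟩ := arc_color hG hC h.bC hyC
          have h2 := h.stm.color hlR (mem_verts_of_mem_edge he) hχ
          refine hχ u y (hlR u h.stm.mem_end) (verts_sub hG hC hyC) hadj ?_ (by rw [h2, h1])
          intro heq
          have h3 := mem_verts_of_mem_edge he
          rw [← heq] at h3
          exact huC (h3 u (by simp))
      · exact ih _ hdis _ _ _ _ (h.extend hadj hyl hyC) le_rfl

/-- **Key lemma.** For every maximum matching `M` and odd cycle `C` there is a flower with
blossom `C` whose end is uncovered by `M`. -/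
lemma key (hG : RDisjoint G) {C : G.Subgraph} (hC : IsOddCycle G C) {M : V → V}
    (hM : MaxM G M) : ∃ f b u l, Fl G C f b u l ∧ M u = u := by
  obtain ⟨y, hy⟩ := hG.2.1 C hC
  rw [mem_reach_iff hC] at hy
  obtain ⟨f, b, u, l, h, -⟩ := hy
  exact key_aux hG hC hM _ f b u l h le_rfl

/-- **Exchange lemma.** A matched partner of an essential vertex adjacent to an exposable vertex
is exposable. -/
lemma exposable_aux {a d : V} (had : G.Adj a d) (ha : ∀ g, MaxM G g → g a ≠ a) {h : V → V}
    (hh : MaxM G h) (hd : h d = d) : ∀ (n : ℕ) (M : V → V), MaxM G M → dis M h ≤ n →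
      ∃ g, MaxM G g ∧ g (M a) = M a := by
  intro n
  induction n using Nat.strong_induction_on with
  | _ n ih =>
    intro M hM hn
    by_cases hMd : M d = d
    · refine ⟨exch M d a, hM.exch hMd had.symm, ?_⟩
      refine exch_fy ?_ (hM.ne hMd had.symm)
      intro e
      exact had.ne (hM.1.inj (e.trans hMd.symm))
    · have hfx : fx M = fx h := hM.fx_eq hh
      obtain ⟨w, hw1, hw2⟩ : ∃ w, M w = w ∧ h w ≠ w := by
        by_contra hcon
        push Not at hcon
        have hsub : univ.filter (fun v => M v = v) ⊆ univ.filter (fun v => h v = v) := by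
          intro v hv
          simp only [mem_filter, mem_univ, true_and] at hv ⊢
          exact hcon v hv
        have heq := Finset.eq_of_subset_of_card_le hsub (by unfold fx at hfx; omega)
        have : d ∈ univ.filter (fun v => M v = v) := by rw [heq]; simp [hd]
        simp only [mem_filter, mem_univ, true_and] at this
        exact hMd this
      obtain ⟨y, hy⟩ : ∃ y, h w = y := ⟨_, rfl⟩
      have hadj : G.Adj w y := hy ▸ hh.1.2 w hw2
      have hMy := hM.ne hw1 hadj
      have hMyw : M y ≠ w := fun e => hadj.ne' (hM.1.inj (e.trans hw1.symm))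
      have hM' := hM.exch hw1 hadj
      have hexp : exch M w y (M y) = M y := exch_fy hMyw hMy
      by_cases h1 : y = a
      · exact ⟨_, hM', by rw [← h1]; exact hexp⟩
      by_cases h2 : M y = a
      · exact absurd (by rw [← h2]; exact hexp) (ha _ hM')
      have h3 : a ≠ w := fun e => ha M hM (e ▸ hw1)
      have h4 : exch M w y a = M a := exch_other h3 (Ne.symm h1) (Ne.symm h2)
      have h5 := ih (dis (exch M w y) h)
        (lt_of_lt_of_le (dis_exch hM.1 hh.1 hw1 hy hadj.ne' hMy) hn) _ hM' le_rfl
      rwa [h4] at h5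

lemma exposable {a d : V} (had : G.Adj a d) (ha : ∀ g, MaxM G g → g a ≠ a) {h : V → V}
    (hh : MaxM G h) (hd : h d = d) {M : V → V} (hM : MaxM G M) :
    ∃ g, MaxM G g ∧ g (M a) = M a :=
  exposable_aux had ha hh hd _ M hM le_rfl

end Pool.Agent.Run7.h502.FD
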