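import Pool.Agent.Run7.h502.FD.Key

/-!
# Matchings and odd cycles of a permutation along edges
-/

set_option autoImplicit false
set_option linter.unusedSectionVars false
set_option linter.unusedVariables false

namespace Pool.Agent.Run7.h502.FD

open SimpleGraph Finset Function

variable {V : Type*} [Fintype V] [DecidableEq V] {G : SimpleGraph V}

/-- Length of the cycle of `v`. -/
noncomputable def Ln (σ : Equiv.Perm V) (v : V) : ℕ := minimalPeriod σ v

lemma per (σ : Equiv.Perm V) (v : V) : v ∈ periodicPts σ := by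
  refine ⟨orderOf σ, orderOf_pos σ, ?_⟩
  rw [IsPeriodicPt, IsFixedPt, Equiv.Perm.iterate_eq_pow, pow_orderOf_eq_one]
  rfl

lemma Ln_pos (σ : Equiv.Perm V) (v : V) : 0 < Ln σ v :=
  minimalPeriod_pos_of_mem_periodicPts (per σ v)

lemma Ln_apply (σ : Equiv.Perm V) (v : V) : Ln σ (σ v) = Ln σ v :=
  minimalPeriod_apply (per σ v)

lemma Ln_iter (σ : Equiv.Perm V) (n : ℕ) (v : V) : Ln σ (σ^[n] v) = Ln σ v :=
  minimalPeriod_apply_iterate (per σ v) n

lemma iter_Ln (σ : Equiv.Perm V) (v : V) : σ^[Ln σ v] v = v := iterate_minimalPeriod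

lemma iter_inj (σ : Equiv.Perm V) {v : V} {m n : ℕ} (hm : m < Ln σ v) (hn : n < Ln σ v)
    (h : σ^[m] v = σ^[n] v) : m = n :=
  iterate_injOn_Iio_minimalPeriod (f := σ) (x := v) hm hn h

open Classical in
/-- Representative of the cycle of `v`, with `x` as the representative of its own cycle. -/
noncomputable def rp (σ : Equiv.Perm V) (x v : V) : V :=
  if σ.SameCycle x v then x else (Quotient.mk (Equiv.Perm.SameCycle.setoid σ) v).out

lemma rp_self (σ : Equiv.Perm V) (x : V) : rp σ x x = x := by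
  rw [rp, if_pos (Equiv.Perm.SameCycle.refl σ x)]

lemma rp_same (σ : Equiv.Perm V) (x v : V) : σ.SameCycle (rp σ x v) v := by
  unfold rp
  split_ifs with h
  · exact h
  · exact Quotient.mk_out (s := Equiv.Perm.SameCycle.setoid σ) v

lemma rp_eq (σ : Equiv.Perm V) (x : V) {v w : V} (h : σ.SameCycle v w) :
    rp σ x v = rp σ x w := by
  unfold rp
  have h1 : σ.SameCycle x v ↔ σ.SameCycle x w := ⟨fun e => e.trans h, fun e => e.trans h.symm⟩
  have h2 : Quotient.mk (Equiv.Perm.SameCycle.setoid σ) v =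
      Quotient.mk (Equiv.Perm.SameCycle.setoid σ) w := Quotient.sound h
  rw [h2]
  by_cases h3 : σ.SameCycle x v
  · rw [if_pos h3, if_pos (h1.1 h3)]
  · rw [if_neg h3, if_neg (fun e => h3 (h1.2 e))]

lemma same_iter (σ : Equiv.Perm V) (n : ℕ) (v : V) : σ.SameCycle v (σ^[n] v) := by
  rw [Equiv.Perm.iterate_eq_pow]
  exact ⟨n, by simp⟩

lemma exists_ix (σ : Equiv.Perm V) (x v : V) : ∃ n, n < Ln σ v ∧ σ^[n] (rp σ x v) = v := by
  obtain ⟨i, hi⟩ := (rp_same σ x v).exists_nat_pow_eq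
  have h1 : Ln σ (rp σ x v) = Ln σ v := by
    conv_rhs => rw [← hi, ← Equiv.Perm.iterate_eq_pow]
    rw [Ln_iter]
  refine ⟨i % Ln σ v, Nat.mod_lt _ (Ln_pos σ v), ?_⟩
  rw [← h1]
  have := iterate_mod_minimalPeriod_eq (f := σ) (x := rp σ x v) (n := i)
  unfold Ln
  rw [this, Equiv.Perm.iterate_eq_pow, hi]

/-- Index in the cycle. -/
noncomputable def ix (σ : Equiv.Perm V) (x v : V) : ℕ := (exists_ix σ x v).choose

lemma ix_lt (σ : Equiv.Perm V) (x v : V) : ix σ x v < Ln σ v := (exists_ix σ x v).choose_spec.1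

lemma ix_spec (σ : Equiv.Perm V) (x v : V) : σ^[ix σ x v] (rp σ x v) = v :=
  (exists_ix σ x v).choose_spec.2

lemma Ln_rp (σ : Equiv.Perm V) (x v : V) : Ln σ (rp σ x v) = Ln σ v := by
  conv_rhs => rw [← ix_spec σ x v]
  rw [Ln_iter]

lemma ix_unique (σ : Equiv.Perm V) (x v : V) {n : ℕ} (h1 : n < Ln σ v)
    (h2 : σ^[n] (rp σ x v) = v) : ix σ x v = n := by
  apply iter_inj σ (v := rp σ x v)
  · rw [Ln_rp]; exact ix_lt σ x v
  · rwa [Ln_rp]
  · rw [h2, ix_spec]

lemma rp_apply (σ : Equiv.Perm V) (x v : V) : rp σ x (σ v) = rp σ x v :=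
  (rp_eq σ x (same_iter σ 1 v)).symm

lemma ix_succ (σ : Equiv.Perm V) (x v : V) (h : ix σ x v + 1 ≠ Ln σ v) :
    ix σ x (σ v) = ix σ x v + 1 := by
  have h1 := ix_lt σ x v
  apply ix_unique
  · rw [Ln_apply]; omega
  · rw [rp_apply, iterate_succ_apply', ix_spec]

lemma ix_zero (σ : Equiv.Perm V) (x v : V) (h : ix σ x v + 1 = Ln σ v) :
    ix σ x (σ v) = 0 := by
  apply ix_unique
  · exact Ln_pos _ _
  · have h1 : σ^[ix σ x v + 1] (rp σ x v) = rp σ x v := by
      rw [h, ← Ln_rp σ x v]; exact iter_Ln _ _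
    rw [iterate_succ_apply', ix_spec] at h1
    rw [rp_apply, h1]
    rfl

lemma ix_self (σ : Equiv.Perm V) (x : V) : ix σ x x = 0 := by
  apply ix_unique
  · exact Ln_pos _ _
  · rw [rp_self]; rfl

/-- `v` is matched upwards. -/
def Up (σ : Equiv.Perm V) (x v : V) : Prop :=
  (Even (Ln σ v) ∧ Even (ix σ x v)) ∨ (Odd (Ln σ v) ∧ Odd (ix σ x v))

/-- `v` is matched downwards. -/
def Dn (σ : Equiv.Perm V) (x v : V) : Prop :=
  (Even (Ln σ v) ∧ Odd (ix σ x v)) ∨ (Odd (Ln σ v) ∧ Even (ix σ x v) ∧ ix σ x v ≠ 0)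

lemma Up.dn {σ : Equiv.Perm V} {x v : V} (h : Up σ x v) : Dn σ x (σ v) := by
  have h0 : ix σ x v + 1 ≠ Ln σ v := by
    intro e
    rcases h with ⟨h1, h2⟩ | ⟨h1, h2⟩
    · rw [← e] at h1; exact (Nat.even_add_one.1 h1) h2
    · rw [← e] at h1
      rw [Nat.odd_add_one] at h1
      exact h1 h2
  have h3 := ix_succ σ x v h0
  unfold Dn
  rw [Ln_apply, h3]
  rcases h with ⟨h1, h2⟩ | ⟨h1, h2⟩
  · exact Or.inl ⟨h1, h2.add_one⟩
  · exact Or.inr ⟨h1, h2.add_one, by omega⟩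

lemma Dn.up {σ : Equiv.Perm V} {x v : V} (h : Dn σ x v) : Up σ x (σ.symm v) := by
  obtain ⟨w, rfl⟩ : ∃ w, v = σ w := ⟨σ.symm v, by simp⟩
  rw [Equiv.symm_apply_apply]
  unfold Dn at h
  rw [Ln_apply] at h
  by_cases h0 : ix σ x w + 1 = Ln σ w
  · rw [ix_zero σ x w h0] at h
    exfalso
    rcases h with ⟨h1, h2⟩ | ⟨h1, h2, h3⟩
    · exact absurd h2 (by decide)
    · exact h3 rfl
  · rw [ix_succ σ x w h0] at h
    rcases h with ⟨h1, h2⟩ | ⟨h1, h2, h3⟩
    · refine Or.inl ⟨h1, ?_⟩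
      rw [Nat.odd_add_one, Nat.not_odd_iff_even] at h2
      exact h2
    · refine Or.inr ⟨h1, ?_⟩
      rw [Nat.even_add_one, Nat.not_even_iff_odd] at h2
      exact h2

lemma Up.not_dn {σ : Equiv.Perm V} {x v : V} (h : Up σ x v) : ¬ Dn σ x v := by
  rintro (⟨h1, h2⟩ | ⟨h1, h2, h3⟩) <;> rcases h with ⟨h4, h5⟩ | ⟨h4, h5⟩
  · exact (Nat.not_even_iff_odd.2 h2) h5
  · exact (Nat.not_even_iff_odd.2 h4) h1
  · exact (Nat.not_even_iff_odd.2 h1) h4
  · exact (Nat.not_even_iff_odd.2 h5) h2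

open Classical in
/-- The matching. -/
noncomputable def Nm (σ : Equiv.Perm V) (x v : V) : V :=
  if Up σ x v then σ v else if Dn σ x v then σ.symm v else v

lemma Nm_up {σ : Equiv.Perm V} {x v : V} (h : Up σ x v) : Nm σ x v = σ v := by
  rw [Nm, if_pos h]

lemma Nm_dn {σ : Equiv.Perm V} {x v : V} (h : Dn σ x v) : Nm σ x v = σ.symm v := by
  rw [Nm, if_neg (fun e => e.not_dn h), if_pos h]

lemma Nm_no {σ : Equiv.Perm V} {x v : V} (h1 : ¬ Up σ x v) (h2 : ¬ Dn σ x v) :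
    Nm σ x v = v := by
  rw [Nm, if_neg h1, if_neg h2]

variable {σ : Equiv.Perm V} (hσ : ∀ v, G.Adj v (σ v))
include hσ

lemma Nm_mat (x : V) : Mat G (Nm σ x) := by
  constructor
  · intro v
    by_cases h1 : Up σ x v
    · rw [Nm_up h1, Nm_dn h1.dn, Equiv.symm_apply_apply]
    by_cases h2 : Dn σ x v
    · rw [Nm_dn h2, Nm_up h2.up, Equiv.apply_symm_apply]
    rw [Nm_no h1 h2, Nm_no h1 h2]
  · intro v hv
    by_cases h1 : Up σ x v
    · rw [Nm_up h1]; exact hσ v
    by_cases h2 : Dn σ x v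
    · rw [Nm_dn h2]
      have := hσ (σ.symm v)
      rw [Equiv.apply_symm_apply] at this
      exact this.symm
    · exact absurd (Nm_no h1 h2) hv

lemma Nm_fix {x v : V} (h : Nm σ x v = v) : Odd (Ln σ v) ∧ rp σ x v = v := by
  by_cases h1 : Up σ x v
  · rw [Nm_up h1] at h
    exact absurd h (hσ v).ne'
  by_cases h2 : Dn σ x v
  · rw [Nm_dn h2] at h
    have := hσ (σ.symm v)
    rw [Equiv.apply_symm_apply] at this
    exact absurd h this.ne
  · rcases Nat.even_or_odd (Ln σ v) with h3 | h3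
    · exfalso
      rcases Nat.even_or_odd (ix σ x v) with h4 | h4
      · exact h1 (Or.inl ⟨h3, h4⟩)
      · exact h2 (Or.inl ⟨h3, h4⟩)
    · refine ⟨h3, ?_⟩
      have h5 : ix σ x v = 0 := by
        by_contra h6
        rcases Nat.even_or_odd (ix σ x v) with h4 | h4
        · exact h2 (Or.inr ⟨h3, h4, h6⟩)
        · exact h1 (Or.inr ⟨h3, h4⟩)
      have h6 := ix_spec σ x v
      rw [h5] at h6
      exact h6

omit hσ in
lemma Nm_self_even {x : V} (h : Even (Ln σ x)) : Nm σ x x = σ x := by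
  apply Nm_up
  exact Or.inl ⟨h, by rw [ix_self]; decide⟩

omit hσ in
lemma Nm_self_odd {x : V} (h : Odd (Ln σ x)) : Nm σ x x = x := by
  apply Nm_no
  · rintro (⟨h1, h2⟩ | ⟨h1, h2⟩)
    · exact (Nat.not_even_iff_odd.2 h) h1
    · rw [ix_self] at h2; exact absurd h2 (by decide)
  · rintro (⟨h1, h2⟩ | ⟨h1, h2, h3⟩)
    · exact (Nat.not_even_iff_odd.2 h) h1
    · exact h3 (ix_self σ x)

/-- The walk along `σ`. -/
def wk : ∀ (n : ℕ) (v w : V), σ^[n] v = w → G.Walk v w
  | 0, v, _, h => (Walk.nil : G.Walk v v).copy rfl h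
  | n + 1, v, w, h => Walk.cons (hσ v) (wk n (σ v) w h)

lemma wk_zero (v : V) : wk hσ 0 v v rfl = Walk.nil := rfl

lemma wk_succ (n : ℕ) (v w : V) (h : σ^[n + 1] v = w) :
    wk hσ (n + 1) v w h = Walk.cons (hσ v) (wk hσ n (σ v) w h) := rfl

lemma wk_length (n : ℕ) (v w : V) (h : σ^[n] v = w) : (wk hσ n v w h).length = n := by
  induction n generalizing v with
  | zero =>
    obtain rfl : v = w := h
    rfl
  | succ n ih => rw [wk_succ, Walk.length_cons, ih]

lemma mem_wk (n : ℕ) (v w y : V) (h : σ^[n] v = w) :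
    y ∈ (wk hσ n v w h).support ↔ ∃ i ≤ n, σ^[i] v = y := by
  induction n generalizing v with
  | zero =>
    obtain rfl : v = w := h
    rw [wk_zero, Walk.support_nil, List.mem_singleton]
    constructor
    · rintro rfl; exact ⟨0, le_rfl, rfl⟩
    · rintro ⟨i, hi, rfl⟩
      have : i = 0 := by omega
      subst this; rfl
  | succ n ih =>
    rw [wk_succ, Walk.support_cons, List.mem_cons, ih]
    constructor
    · rintro (rfl | ⟨i, hi, rfl⟩)
      · exact ⟨0, by omega, rfl⟩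
      · exact ⟨i + 1, by omega, rfl⟩
    · rintro ⟨i, hi, rfl⟩
      cases i with
      | zero => exact Or.inl rfl
      | succ i => exact Or.inr ⟨i, by omega, rfl⟩

lemma wk_path (n : ℕ) (v w : V) (h : σ^[n] v = w) (hn : n < Ln σ v) :
    (wk hσ n v w h).IsPath := by
  induction n generalizing v with
  | zero =>
    obtain rfl : v = w := h
    exact Walk.IsPath.nil
  | succ n ih =>
    rw [wk_succ, Walk.cons_isPath_iff]
    refine ⟨ih _ _ (by rw [Ln_apply]; omega), ?_⟩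
    rw [mem_wk]
    rintro ⟨i, hi, h2⟩
    have h3 : σ^[i + 1] v = σ^[0] v := h2
    have := iter_inj σ (by omega) (by omega) h3
    omega

omit [Fintype V] [DecidableEq V] hσ in
lemma path_len_one {a b : V} (p : G.Walk a b) (hp : p.IsPath) (h : s(b, a) ∈ p.edges) :
    p.length = 1 := by
  cases p with
  | nil => simp at h
  | @cons _ x _ h' q =>
    rw [Walk.cons_isPath_iff] at hp
    rw [Walk.edges_cons, List.mem_cons] at h
    rcases h with he | he
    · have hx : x = b := by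
        rw [Sym2.eq_iff] at he
        rcases he with ⟨e1, e2⟩ | ⟨e1, _⟩
        · exact absurd e2 h'.ne
        · exact e1.symm
      subst hx
      have := (Walk.isPath_iff_nil.1 hp.1).eq_nil
      subst this
      rfl
    · exact absurd (Walk.snd_mem_support_of_mem_edges _ he) hp.2

/-- The cycle of `v` as a closed walk. -/
noncomputable def cyc (v : V) : G.Walk v v := wk hσ (Ln σ v) v v (iter_Ln σ v)

lemma Ln_ne_one (v : V) : Ln σ v ≠ 1 := by
  intro h
  have := minimalPeriod_eq_one_iff_isFixedPt.1 h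
  exact (hσ v).ne' this

lemma cyc_isCycle (v : V) (h : Odd (Ln σ v)) : (cyc hσ v).IsCycle := by
  obtain ⟨n, hn⟩ : ∃ n, Ln σ v = n + 1 := ⟨Ln σ v - 1, by have := Ln_pos σ v; omega⟩
  have hn2 : 2 ≤ n := by
    have h1 := Ln_ne_one hσ v
    rcases h with ⟨k, hk⟩
    omega
  have key : ∀ (m : ℕ) (hm : σ^[m] v = v), m = n + 1 → (wk hσ m v v hm).IsCycle := by
    rintro m hm rfl
    rw [wk_succ, Walk.cons_isCycle_iff]
    have hp : (wk hσ n (σ v) v hm).IsPath := wk_path hσ n _ _ _ (by rw [Ln_apply]; omega)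
    refine ⟨hp, fun he => ?_⟩
    have := path_len_one _ hp he
    rw [wk_length] at this
    omega
  exact key _ _ hn

lemma cyc_verts (v y : V) : y ∈ (cyc hσ v).toSubgraph.verts ↔ ∃ i ≤ Ln σ v, σ^[i] v = y := by
  rw [Walk.mem_verts_toSubgraph, cyc, mem_wk]

lemma cyc_odd (v : V) (h : Odd (Ln σ v)) : IsOddCycle G (cyc hσ v).toSubgraph :=
  ⟨v, _, cyc_isCycle hσ v h, by rw [cyc, wk_length]; exact h, rfl⟩

lemma cyc_mem (v : V) : v ∈ (cyc hσ v).toSubgraph.verts := by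
  rw [cyc_verts]; exact ⟨0, by omega, rfl⟩

lemma cyc_mem_apply (v : V) : σ v ∈ (cyc hσ v).toSubgraph.verts := by
  rw [cyc_verts]; exact ⟨1, Ln_pos _ _, rfl⟩

end Pool.Agent.Run7.h502.FD
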